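import Pool.Agent.Lib.MP_8c76c5_an.Defs

/-!
# The data extracted from the estimates
-/

set_option autoImplicit false

open Set Filter Topology

namespace Pool.Agent.Lib.MP_8c76c5_an

/-- The data extracted from the estimates. Here `r m / (2 (m+2))` is the radius of the excluded disc
about `-r m`. -/
structure BakerData (f : ℂ → ℂ) (r ρ : ℕ → ℝ) : Prop where
  entire : Differentiable ℂ f
  map_zero : f 0 = 0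
  r_pos : ∀ m, 0 < r m
  r_tendsto : Tendsto r atTop atTop
  two_r_le : ∀ m, 2 * r m ≤ ρ m
  rho_lt : ∀ m, 3 * ρ m < r (m + 1)
  lower : ∀ (m : ℕ) (z : ℂ), r m / 3 ≤ ‖z‖ → ‖z‖ ≤ ρ m → r m / (2 * (m + 2)) ≤ ‖z + r m‖ →
    4 * r (m + 1) ≤ ‖f z‖
  upper : ∀ (m : ℕ) (z : ℂ), ‖z‖ ≤ ρ m → ‖f z‖ < ρ (m + 1)
  mono : ∀ (z : ℂ) (s : ℝ), ‖z‖ < s → ‖f z‖ < ‖f s‖
  zero_mem : ∀ m : ℕ, ∃ z : ℂ, ‖z + r m‖ < r m / (2 * (m + 2)) ∧ f z = 0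
  growth : ∀ (m : ℕ) (z : ℂ), r m / 3 < ‖z‖ → ‖z‖ < ρ m → r m / (2 * (m + 2)) < ‖z + r m‖ →
    ‖z‖ ^ (m / 2) ≤ ‖f z‖
  crit : ∀ c : ℂ, deriv f c = 0 → ∃ m, r m / 3 < ‖c‖ ∧ ‖c‖ < ρ m ∧
    r m / (2 * (m + 2)) < ‖c + r m‖
  not_poly : ¬ ∃ p : Polynomial ℂ, ∀ z, f z = p.eval z

end Pool.Agent.Lib.MP_8c76c5_an
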