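import Mathlib

/-!
# Definitions: Fatou set, Fatou components, Baker wandering domains, connectivity
-/

set_option autoImplicit false

open Set Filter Topology

namespace Pool.Agent.Lib.MP_8c76c5_an

/-- `f` is a transcendental entire function. -/
def TranscendentalEntire (f : ℂ → ℂ) : Prop :=
  Differentiable ℂ f ∧ ¬ ∃ p : Polynomial ℂ, ∀ z, f z = p.eval z

/-- `F j` tends to `∞` locally uniformly on `V` as `j → ∞`. -/
def DivergesLocallyUniformlyOn (F : ℕ → ℂ → ℂ) (V : Set ℂ) : Prop :=
  ∀ M : ℝ, ∀ z ∈ V, ∃ N ∈ 𝓝[V] z, ∀ᶠ j in atTop, ∀ w ∈ N, M < ‖F j w‖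

/-- The family of the iterates of `f` is normal on `V`: every sequence of iterates (with strictly
increasing exponents) has a subsequence which, locally uniformly on `V`, converges to a finite
function or tends to `∞`. -/
def NormalIteratesOn (f : ℂ → ℂ) (V : Set ℂ) : Prop :=
  ∀ ν : ℕ → ℕ, StrictMono ν → ∃ φ : ℕ → ℕ, StrictMono φ ∧
    ((∃ g : ℂ → ℂ, TendstoLocallyUniformlyOn (fun j => f^[ν (φ j)]) g atTop V) ∨
      DivergesLocallyUniformlyOn (fun j => f^[ν (φ j)]) V)

/-- The Fatou set of `f`. -/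
def fatouSet (f : ℂ → ℂ) : Set ℂ :=
  {z | ∃ V : Set ℂ, IsOpen V ∧ z ∈ V ∧ NormalIteratesOn f V}

/-- `W` is a Fatou component of `f`. -/
def IsFatouComponent (f : ℂ → ℂ) (W : Set ℂ) : Prop :=
  ∃ z ∈ fatouSet f, W = connectedComponentIn (fatouSet f) z

/-- The complement of `A` in the Riemann sphere. -/
def sphereCompl (A : Set ℂ) : Set (OnePoint ℂ) :=
  ((fun z : ℂ => (z : OnePoint ℂ)) '' A)ᶜ

/-- The complement of `A` in the Riemann sphere has more than one component. -/
def MultiplyConnected (A : Set ℂ) : Prop :=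
  Nontrivial (ConnectedComponents (sphereCompl A))

/-- The complement of `A` in the Riemann sphere has infinitely many components. -/
def InfinitelyConnected (A : Set ℂ) : Prop :=
  Infinite (ConnectedComponents (sphereCompl A))

/-- `0` lies in a bounded component of the complement of `A` in the Riemann sphere. -/
def SurroundsZero (A : Set ℂ) : Prop :=
  (0 : ℂ) ∉ A ∧ ∃ B : Set ℂ, Bornology.IsBounded B ∧
    connectedComponentIn (sphereCompl A) ((0 : ℂ) : OnePoint ℂ) =
      (fun z : ℂ => (z : OnePoint ℂ)) '' B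

/-- `W 0` is a Baker wandering domain of `f`, and for each `k` the set `W k` is the Fatou component
of `f` which contains `f^k (W 0)`. -/
structure BakerWanderingDomain (f : ℂ → ℂ) (W : ℕ → Set ℂ) : Prop where
  component : ∀ k, IsFatouComponent f (W k)
  image_subset : ∀ k, f^[k] '' W 0 ⊆ W k
  wandering : ∀ m n, m ≠ n → Disjoint (W m) (W n)
  escaping : ∀ z ∈ W 0, Tendsto (fun n => ‖f^[n] z‖) atTop atTop
  eventually_surrounds : ∀ᶠ n in atTop,
    Bornology.IsBounded (W n) ∧ MultiplyConnected (W n) ∧ SurroundsZero (W n)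

end Pool.Agent.Lib.MP_8c76c5_an
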