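import Pool.Agent.Lib.MP_8c76c5_an.Defs

set_option autoImplicit false

open Set Filter Topology Metric

namespace Pool.Agent.Lib.MP_8c76c5_an

theorem isOpen_fatouSet (f : ℂ → ℂ) : IsOpen (fatouSet f) := by
  rw [isOpen_iff_forall_mem_open]
  rintro z ⟨V, hV, hz, hN⟩
  exact ⟨V, fun w hw => ⟨V, hV, hw, hN⟩, hV, hz⟩

/-- An open set on which the iterates tend locally uniformly to `∞` lies in the Fatou set. -/
theorem subset_fatouSet_of_diverges (f : ℂ → ℂ) (V : Set ℂ) (hV : IsOpen V)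
    (hdiv : DivergesLocallyUniformlyOn (fun k => f^[k]) V) : V ⊆ fatouSet f := by
  intro z hz
  refine ⟨V, hV, hz, fun ν hν => ⟨id, strictMono_id, Or.inr ?_⟩⟩
  intro M w hw
  obtain ⟨N, hN, h⟩ := hdiv M w hw
  exact ⟨N, hN, hν.tendsto_atTop.eventually h⟩

/-- Backward invariance. -/
theorem mem_fatouSet_of_map_mem (f : ℂ → ℂ) (hf : Continuous f) (z : ℂ)
    (h : f z ∈ fatouSet f) : z ∈ fatouSet f := by
  obtain ⟨V, hV, hz, hN⟩ := h
  refine ⟨f ⁻¹' V, hV.preimage hf, hz, fun ν hν => ?_⟩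
  have hν1 : ∀ j, 1 ≤ ν (j + 1) := fun j => by
    have := hν.id_le (j + 1)
    simp only [id] at this
    omega
  have hν' : StrictMono fun j => ν (j + 1) - 1 := by
    intro a b hab
    have h1 := hν1 a
    have h2 : ν (a + 1) < ν (b + 1) := hν (by omega)
    simp only
    omega
  obtain ⟨φ, hφ, h⟩ := hN _ hν'
  have hiter : ∀ j w, f^[ν (φ j + 1)] w = f^[ν (φ j + 1) - 1] (f w) := by
    intro j w
    rw [← Function.iterate_succ_apply]
    congr 2
    have := hν1 (φ j)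
    omega
  refine ⟨fun j => φ j + 1, fun a b hab => by simpa using hφ hab, ?_⟩
  rcases h with ⟨g, hg⟩ | hd
  · left
    refine ⟨g ∘ f, ?_⟩
    have := hg.comp f (fun w (hw : w ∈ f ⁻¹' V) => hw) hf.continuousOn
    refine this.congr ?_
    intro j w _
    simp only [Function.comp]
    exact (hiter j w).symm
  · right
    intro M w hw
    obtain ⟨N, hN, hev⟩ := hd M (f w) hw
    refine ⟨f ⁻¹' N, ?_, ?_⟩
    · rw [hV.nhdsWithin_eq hw] at hN
      exact mem_nhdsWithin_of_mem_nhds (hf.continuousAt.preimage_mem_nhds hN)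
    · filter_upwards [hev] with j hj u hu
      simp only [hiter]
      exact hj (f u) hu

/-- Forward invariance. -/
theorem map_mem_fatouSet (f : ℂ → ℂ) (hf : Continuous f) (ho : IsOpenMap f) (z : ℂ)
    (h : z ∈ fatouSet f) : f z ∈ fatouSet f := by
  obtain ⟨V, hV, hz, hN⟩ := h
  refine ⟨f '' V, ho V hV, ⟨z, hz, rfl⟩, fun ν hν => ?_⟩
  have hν' : StrictMono fun j => ν j + 1 := fun a b hab => by simpa using hν hab
  obtain ⟨φ, hφ, h⟩ := hN _ hν'
  refine ⟨φ, hφ, ?_⟩
  rcases h with ⟨g, hg⟩ | hd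
  · left
    have hlim : ∀ w ∈ V, Tendsto (fun j => f^[ν (φ j)] (f w)) atTop (𝓝 (g w)) := by
      intro w hw
      exact hg.tendsto_at hw
    have hex : ∀ y ∈ f '' V, ∃ x ∈ V, f x = y := fun y hy => hy
    choose! c hcV hc using hex
    have hgc : ∀ w ∈ V, g (c (f w)) = g w := by
      intro w hw
      have h1 := hlim (c (f w)) (hcV _ ⟨w, hw, rfl⟩)
      rw [hc _ ⟨w, hw, rfl⟩] at h1
      exact tendsto_nhds_unique h1 (hlim w hw)
    refine ⟨fun y => g (c y), ?_⟩
    rw [Metric.tendstoLocallyUniformlyOn_iff] at hg ⊢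
    rintro ε hε _ ⟨x, hx, rfl⟩
    obtain ⟨N, hN, hev⟩ := hg ε hε x hx
    rw [hV.nhdsWithin_eq hx] at hN
    refine ⟨f '' (N ∩ V), ?_, ?_⟩
    · refine mem_nhdsWithin_of_mem_nhds (ho.image_mem_nhds ?_)
      exact inter_mem hN (hV.mem_nhds hx)
    · filter_upwards [hev] with j hj
      rintro _ ⟨w, ⟨hwN, hwV⟩, rfl⟩
      rw [hgc w hwV]
      exact hj w hwN
  · right
    rintro M _ ⟨x, hx, rfl⟩
    obtain ⟨N, hN, hev⟩ := hd M x hx
    rw [hV.nhdsWithin_eq hx] at hN
    refine ⟨f '' N, mem_nhdsWithin_of_mem_nhds (ho.image_mem_nhds hN), ?_⟩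
    filter_upwards [hev] with j hj
    rintro _ ⟨w, hw, rfl⟩
    exact hj w hw

/-- If the iterates are normal on an open set and tend to `∞` at one of its points, they tend to
`∞` locally uniformly. -/
theorem diverges_of_normal (f : ℂ → ℂ) (V : Set ℂ) (hN : NormalIteratesOn f V)
    (p : ℂ) (hp : p ∈ V) (hesc : Tendsto (fun k => ‖f^[k] p‖) atTop atTop) :
    DivergesLocallyUniformlyOn (fun k => f^[k]) V := by
  by_contra hcon
  unfold DivergesLocallyUniformlyOn at hcon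
  push Not at hcon
  obtain ⟨M, z, hz, hbad⟩ := hcon
  obtain ⟨N, hNb⟩ := (𝓝[V] z).exists_antitone_basis
  have hfreq : ∀ i, ∃ᶠ j in atTop, ∃ w ∈ N i, ‖f^[j] w‖ ≤ M := fun i => hbad (N i) (hNb.mem i)
  obtain ⟨ν, hν, hνP⟩ := Filter.extraction_forall_of_frequently hfreq
  choose w hwN hwM using hνP
  obtain ⟨φ, hφ, h⟩ := hN ν hν
  have hcomp : Tendsto (fun j => ν (φ j)) atTop atTop :=
    hν.tendsto_atTop.comp hφ.tendsto_atTop
  rcases h with ⟨g, hg⟩ | hd
  · have h1 : Tendsto (fun j => ‖f^[ν (φ j)] p‖) atTop (𝓝 ‖g p‖) := (hg.tendsto_at hp).norm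
    have h2 : Tendsto (fun j => ‖f^[ν (φ j)] p‖) atTop atTop := hesc.comp hcomp
    exact not_tendsto_atTop_of_tendsto_nhds h1 h2
  · obtain ⟨N', hN', hev⟩ := hd M z hz
    obtain ⟨i, hi⟩ := hNb.mem_iff.mp hN'
    have h3 : ∀ᶠ j in atTop, i ≤ φ j := hφ.tendsto_atTop.eventually_ge_atTop i
    obtain ⟨j, hj1, hj2⟩ := (hev.and h3).exists
    have h4 := hj1 (w (φ j)) (hi (hNb.antitone hj2 (hwN (φ j))))
    exact absurd (hwM (φ j)) (not_le.mpr h4)

/-- If the iterates tend to `∞` at one point of a Fatou component, they do so locally uniformly on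
the component. -/
theorem diverges_on_component (f : ℂ → ℂ) (z₀ z₁ : ℂ)
    (h₁ : z₁ ∈ connectedComponentIn (fatouSet f) z₀)
    (hesc : Tendsto (fun k => ‖f^[k] z₁‖) atTop atTop) :
    DivergesLocallyUniformlyOn (fun k => f^[k]) (connectedComponentIn (fatouSet f) z₀) := by
  have hesc_of : ∀ V : Set ℂ, DivergesLocallyUniformlyOn (fun k => f^[k]) V → ∀ x ∈ V,
      Tendsto (fun k => ‖f^[k] x‖) atTop atTop := by
    intro V hV x hx
    rw [Filter.tendsto_atTop]
    intro M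
    obtain ⟨N, hN, hev⟩ := hV M x hx
    filter_upwards [hev] with j hj
    exact (hj x (mem_of_mem_nhdsWithin hx hN)).le
  have hall : ∀ y ∈ connectedComponentIn (fatouSet f) z₀,
      Tendsto (fun k => ‖f^[k] y‖) atTop atTop := by
    intro y hy
    refine isPreconnected_connectedComponentIn.induction₂'
      (fun a b => Tendsto (fun k => ‖f^[k] a‖) atTop atTop →
        Tendsto (fun k => ‖f^[k] b‖) atTop atTop) ?_ ?_ h₁ hy hesc
    · intro x hx
      obtain ⟨V, hV, hxV, hN⟩ := connectedComponentIn_subset _ _ hx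
      have : ∀ᶠ y in 𝓝[connectedComponentIn (fatouSet f) z₀] x, y ∈ V :=
        mem_nhdsWithin_of_mem_nhds (hV.mem_nhds hxV)
      filter_upwards [this] with y hy
      exact ⟨fun h => hesc_of V (diverges_of_normal f V hN x hxV h) y hy,
        fun h => hesc_of V (diverges_of_normal f V hN y hy h) x hxV⟩
    · intro a b c _ _ _ h1 h2 h3
      exact h2 (h1 h3)
  intro M y hy
  obtain ⟨V, hV, hyV, hN⟩ := connectedComponentIn_subset _ _ hy
  obtain ⟨N, hN', hev⟩ := diverges_of_normal f V hN y hyV (hall y hy) M y hyV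
  rw [hV.nhdsWithin_eq hyV] at hN'
  exact ⟨N, mem_nhdsWithin_of_mem_nhds hN', hev⟩

end Pool.Agent.Lib.MP_8c76c5_an
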