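import Pool.Agent.Lib.MP_8c76c5_an.Defs

set_option autoImplicit false

open Set Filter Topology Metric

namespace Pool.Agent.Lib.MP_8c76c5_an

/-- A zero-free holomorphic function on a disc has a holomorphic logarithm. -/
theorem exists_holomorphic_log (F : ℂ → ℂ) (z : ℂ) (R : ℝ) (hR : 0 < R)
    (hF : DifferentiableOn ℂ F (ball z R)) (h0 : ∀ w ∈ ball z R, F w ≠ 0) :
    ∃ g : ℂ → ℂ, DifferentiableOn ℂ g (ball z R) ∧ ∀ w ∈ ball z R, Complex.exp (g w) = F w := by
  have hzb : z ∈ ball z R := mem_ball_self hR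
  have hd : DifferentiableOn ℂ (fun w => deriv F w / F w) (ball z R) :=
    (hF.deriv isOpen_ball).div hF h0
  obtain ⟨g, hgz, hg⟩ := hd.isExactOn_ball.with_val_at z (Complex.log (F z))
  have hgd : DifferentiableOn ℂ g (ball z R) := fun w hw =>
    (hg w hw).differentiableAt.differentiableWithinAt
  refine ⟨g, hgd, ?_⟩
  have hconst : ∀ w ∈ ball z R, F w * Complex.exp (-g w) = F z * Complex.exp (-g z) := by
    intro w hw
    refine isOpen_ball.is_const_of_deriv_eq_zero (convex_ball z R).isPreconnected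
      (f := fun w => F w * Complex.exp (-g w)) (hF.mul hgd.neg.cexp) ?_ hw hzb
    intro v hv
    have h1 : HasDerivAt F (deriv F v) v := (hF.differentiableAt (isOpen_ball.mem_nhds hv)).hasDerivAt
    have h2 : HasDerivAt (fun w => F w * Complex.exp (-g w))
        (deriv F v * Complex.exp (-g v) + F v * (Complex.exp (-g v) * -(deriv F v / F v))) v :=
      h1.mul (hg v hv).neg.cexp
    rw [h2.deriv]
    have := h0 v hv
    simp only [Pi.zero_apply]
    field_simp
    ring
  intro w hw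
  have h := hconst w hw
  rw [hgz, Complex.exp_neg (Complex.log (F z)), Complex.exp_log (h0 z hzb),
    mul_inv_cancel₀ (h0 z hzb), Complex.exp_neg] at h
  have he := Complex.exp_ne_zero (g w)
  field_simp at h
  exact h.symm

/-- Harnack's inequality for `log ‖F‖` on a disc where `‖F‖ > 1`. -/
theorem harnack_log (F : ℂ → ℂ) (z : ℂ) (R : ℝ) (hR : 0 < R)
    (hF : DifferentiableOn ℂ F (ball z R)) (h1 : ∀ w ∈ ball z R, 1 < ‖F w‖)
    (u : ℂ) (hu : dist u z ≤ R / 2) :
    Real.log ‖F u‖ ≤ 3 * Real.log ‖F z‖ ∧ Real.log ‖F z‖ ≤ 3 * Real.log ‖F u‖ := by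
  have hzb : z ∈ ball z R := mem_ball_self hR
  have hub : u ∈ ball z R := by
    rw [mem_ball]; linarith
  obtain ⟨g, hgd, hg⟩ := exists_holomorphic_log F z R hR hF (fun w hw => by
    intro h
    have := h1 w hw
    rw [h, norm_zero] at this
    linarith)
  have hre : ∀ w ∈ ball z R, Real.log ‖F w‖ = (g w).re := by
    intro w hw
    rw [← hg w hw, Complex.norm_exp, Real.log_exp]
  have hpos : ∀ w ∈ ball z R, 0 < (g w).re := by
    intro w hw
    rw [← hre w hw]
    exact Real.log_pos (h1 w hw)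
  rw [hre u hub, hre z hzb]
  set a := g z with ha
  have ha0 : 0 < a.re := hpos z hzb
  have hne : ∀ w ∈ ball z R, g w + (starRingEnd ℂ) a ≠ 0 := by
    intro w hw h
    have h2 := congrArg Complex.re h
    simp only [Complex.add_re, Complex.conj_re, Complex.zero_re] at h2
    have := hpos w hw
    linarith
  have key : ∀ w : ℂ, ‖g w - a‖ ^ 2 = ((g w).re - a.re) ^ 2 + ((g w).im - a.im) ^ 2 := by
    intro w
    rw [← Complex.normSq_eq_norm_sq, Complex.normSq_apply]
    simp only [Complex.sub_re, Complex.sub_im]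
    ring
  have key2 : ∀ w : ℂ, ‖g w + (starRingEnd ℂ) a‖ ^ 2
      = ((g w).re + a.re) ^ 2 + ((g w).im - a.im) ^ 2 := by
    intro w
    rw [← Complex.normSq_eq_norm_sq, Complex.normSq_apply]
    simp only [Complex.add_re, Complex.add_im, Complex.conj_re, Complex.conj_im]
    ring
  have hmaps : MapsTo (fun w => (g w - a) / (g w + (starRingEnd ℂ) a)) (ball z R)
      (closedBall ((g z - a) / (g z + (starRingEnd ℂ) a)) 1) := by
    intro w hw
    have h3 : (g z - a) / (g z + (starRingEnd ℂ) a) = 0 := by rw [← ha]; simp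
    rw [h3, mem_closedBall, dist_zero_right, norm_div,
      div_le_one (norm_pos_iff.mpr (hne w hw))]
    refine le_of_sq_le_sq ?_ (norm_nonneg _)
    rw [key, key2]
    have := hpos w hw
    nlinarith
  have hs := Complex.dist_le_div_mul_dist_of_mapsTo_ball
    ((hgd.sub_const a).div (hgd.add_const _) hne) hmaps hub
  have h3 : (g z - a) / (g z + (starRingEnd ℂ) a) = 0 := by rw [← ha]; simp
  have h4 : ‖g u - a‖ ≤ 1 / 2 * ‖g u + (starRingEnd ℂ) a‖ := by
    have h5 : dist ((g u - a) / (g u + (starRingEnd ℂ) a)) ((g z - a) / (g z + (starRingEnd ℂ) a))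
        ≤ 1 / 2 := by
      refine hs.trans ?_
      calc 1 / R * dist u z ≤ 1 / R * (R / 2) := by gcongr
        _ = 1 / 2 := by field_simp
    rw [h3, dist_zero_right, norm_div, div_le_iff₀ (norm_pos_iff.mpr (hne u hub))] at h5
    exact h5
  have h6 : ‖g u - a‖ ^ 2 ≤ 1 / 4 * ‖g u + (starRingEnd ℂ) a‖ ^ 2 := by
    have := pow_le_pow_left₀ (norm_nonneg _) h4 2
    calc _ ≤ _ := this
      _ = _ := by ring
  rw [key, key2] at h6
  have hu0 := hpos u hub
  have h7 : ((g u).re - a.re) ^ 2 ≤ (((g u).re + a.re) / 2) ^ 2 := by nlinarith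
  have h8 := abs_le_of_sq_le_sq h7 (by linarith)
  rw [abs_le] at h8
  constructor <;> linarith

/-- Chained version on a connected open set on which the iterates tend to `∞`. -/
theorem harnack_chain (f : ℂ → ℂ) (hf : Differentiable ℂ f) (V : Set ℂ) (hV : IsOpen V)
    (hc : IsPreconnected V) (hdiv : DivergesLocallyUniformlyOn (fun k => f^[k]) V)
    (z u : ℂ) (hz : z ∈ V) (hu : u ∈ V) :
    ∃ K : ℝ, ∀ᶠ k in atTop, Real.log ‖f^[k] u‖ ≤ K * Real.log ‖f^[k] z‖ := by
  have hmain : ∃ K : ℝ, 0 ≤ K ∧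
      ∀ᶠ k in atTop, Real.log ‖f^[k] u‖ ≤ K * Real.log ‖f^[k] z‖ := by
    refine hc.induction₂' (fun x y => ∃ K : ℝ, 0 ≤ K ∧
      ∀ᶠ k in atTop, Real.log ‖f^[k] y‖ ≤ K * Real.log ‖f^[k] x‖) ?_ ?_ hz hu
    · intro x hx
      obtain ⟨N, hN, hk⟩ := hdiv 1 x hx
      rw [hV.nhdsWithin_eq hx] at hN
      obtain ⟨ρ, hρ, hball⟩ := Metric.mem_nhds_iff.mp hN
      have h1 : ∀ᶠ y in 𝓝[V] x, y ∈ closedBall x (ρ / 2) :=
        mem_nhdsWithin_of_mem_nhds (closedBall_mem_nhds x (by positivity))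
      filter_upwards [h1] with y hy
      have h2 : ∀ᶠ k in atTop, Real.log ‖f^[k] y‖ ≤ 3 * Real.log ‖f^[k] x‖ ∧
          Real.log ‖f^[k] x‖ ≤ 3 * Real.log ‖f^[k] y‖ := by
        filter_upwards [hk] with k hk
        exact harnack_log f^[k] x ρ hρ (hf.iterate k).differentiableOn
          (fun w hw => hk w (hball hw)) y hy
      exact ⟨⟨3, by norm_num, h2.mono fun k h => h.1⟩, ⟨3, by norm_num, h2.mono fun k h => h.2⟩⟩
    · rintro x y w _ _ _ ⟨K, hK0, hK⟩ ⟨K', hK0', hK'⟩
      refine ⟨K' * K, by positivity, ?_⟩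
      filter_upwards [hK, hK'] with k h1 h2
      calc Real.log ‖f^[k] w‖ ≤ K' * Real.log ‖f^[k] y‖ := h2
        _ ≤ K' * (K * Real.log ‖f^[k] x‖) := by gcongr
        _ = K' * K * Real.log ‖f^[k] x‖ := by ring
  obtain ⟨K, _, hK⟩ := hmain
  exact ⟨K, hK⟩

end Pool.Agent.Lib.MP_8c76c5_an
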