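import Pool.Agent.Lib.MP_8c76c5_an.Defs

set_option autoImplicit false

open Set Filter Topology Metric

namespace Pool.Agent.Lib.MP_8c76c5_an

private lemma isConnected_unit_circle : IsConnected (sphere (0 : ℂ) 1) := by
  refine isConnected_sphere ?_ 0 zero_le_one
  rw [Complex.rank_real_complex]
  norm_num

/-- An open annulus about `0` is connected. -/
theorem isConnected_annulus (a b : ℝ) (ha : 0 ≤ a) (hab : a < b) :
    IsConnected {z : ℂ | a < ‖z‖ ∧ ‖z‖ < b} := by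
  have h1 : IsConnected (Ioo a b ×ˢ sphere (0 : ℂ) 1) :=
    (isConnected_Ioo hab).prod isConnected_unit_circle
  have h2 : {z : ℂ | a < ‖z‖ ∧ ‖z‖ < b} =
      (fun p : ℝ × ℂ => (p.1 : ℂ) * p.2) '' (Ioo a b ×ˢ sphere (0 : ℂ) 1) := by
    ext z
    constructor
    · rintro ⟨hz1, hz2⟩
      have hz0 : 0 < ‖z‖ := lt_of_le_of_lt ha hz1
      have hz0' : (‖z‖ : ℂ) ≠ 0 := by exact_mod_cast hz0.ne'
      refine ⟨(‖z‖, z / ‖z‖), ⟨⟨hz1, hz2⟩, ?_⟩, ?_⟩
      · simp only [mem_sphere_iff_norm, sub_zero, norm_div, Complex.norm_real, norm_norm]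
        exact div_self hz0.ne'
      · simp only
        field_simp
    · rintro ⟨⟨t, u⟩, ⟨⟨ht1, ht2⟩, hu⟩, rfl⟩
      simp only [mem_sphere_iff_norm, sub_zero] at hu
      have ht0 : 0 < t := lt_of_le_of_lt ha ht1
      simp only [mem_ofPred_eq, norm_mul, Complex.norm_real, hu, mul_one, Real.norm_eq_abs,
        abs_of_pos ht0]
      exact ⟨ht1, ht2⟩
  rw [h2]
  exact h1.image _ (by fun_prop)

/-- An annulus minus a closed disc inside it (centred at `-r`) is connected. -/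
theorem isConnected_annulus_diff (r ρ δ : ℝ) (hr : 0 < r) (hρ : 2 * r ≤ ρ) (hδ0 : 0 < δ)
    (hδ : δ ≤ r / 4) :
    IsConnected {z : ℂ | r / 3 < ‖z‖ ∧ ‖z‖ < ρ ∧ δ < ‖z + r‖} := by
  set S : Set ℂ := {z : ℂ | r / 3 < ‖z‖ ∧ ‖z‖ < ρ ∧ δ < ‖z + r‖} with hS
  set A1 : Set ℂ := {z : ℂ | r / 3 < ‖z‖ ∧ ‖z‖ < r - δ} with hA1
  set A2 : Set ℂ := {z : ℂ | r + δ < ‖z‖ ∧ ‖z‖ < ρ} with hA2
  set P : Set ℂ := (fun t : ℝ => (t : ℂ)) '' Ioo (r / 3) ρ with hP
  have cA1 : IsConnected A1 := isConnected_annulus _ _ (by positivity) (by linarith)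
  have cA2 : IsConnected A2 := isConnected_annulus _ _ (by positivity) (by linarith)
  have cP : IsConnected P :=
    (isConnected_Ioo (by linarith)).image _ (by fun_prop)
  have sA1 : A1 ⊆ S := by
    rintro z ⟨h1, h2⟩
    refine ⟨h1, by linarith, ?_⟩
    have : ‖(r : ℂ)‖ ≤ ‖z + r‖ + ‖z‖ := by
      calc ‖(r : ℂ)‖ = ‖(z + r) - z‖ := by ring_nf
        _ ≤ _ := norm_sub_le _ _
    rw [Complex.norm_real, Real.norm_eq_abs, abs_of_pos hr] at this
    linarith
  have sA2 : A2 ⊆ S := by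
    rintro z ⟨h1, h2⟩
    refine ⟨by linarith, h2, ?_⟩
    have : ‖z‖ ≤ ‖z + r‖ + ‖(r : ℂ)‖ := by
      calc ‖z‖ = ‖(z + r) - r‖ := by ring_nf
        _ ≤ _ := norm_sub_le _ _
    rw [Complex.norm_real, Real.norm_eq_abs, abs_of_pos hr] at this
    linarith
  have sP : P ⊆ S := by
    rintro _ ⟨t, ⟨h1, h2⟩, rfl⟩
    have ht0 : 0 < t := by linarith
    have e1 : ‖(t : ℂ)‖ = t := by
      rw [Complex.norm_real, Real.norm_eq_abs, abs_of_pos ht0]
    have e2 : ‖(t : ℂ) + r‖ = t + r := by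
      rw [← Complex.ofReal_add, Complex.norm_real, Real.norm_eq_abs, abs_of_pos (by linarith)]
    refine ⟨?_, ?_, ?_⟩
    · simpa only [e1] using h1
    · simpa only [e1] using h2
    · simp only [e2]; linarith
  -- base points on the positive axis
  have b1 : ((r / 2 : ℝ) : ℂ) ∈ A1 ∩ P := by
    constructor
    · simp only [hA1, mem_ofPred_eq]
      rw [Complex.norm_real, Real.norm_eq_abs, abs_of_pos (by linarith)]
      constructor <;> linarith
    · exact ⟨r / 2, ⟨by linarith, by linarith⟩, rfl⟩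
  have b2 : (((r + δ + ρ) / 2 : ℝ) : ℂ) ∈ P ∩ A2 := by
    constructor
    · exact ⟨(r + δ + ρ) / 2, ⟨by linarith, by linarith⟩, rfl⟩
    · simp only [hA2, mem_ofPred_eq]
      rw [Complex.norm_real, Real.norm_eq_abs, abs_of_pos (by linarith)]
      constructor <;> linarith
  have cAll : IsConnected ((A1 ∪ P) ∪ A2) := by
    refine IsConnected.union ?_ (IsConnected.union ⟨_, b1⟩ cA1 cP) cA2
    exact ⟨_, Or.inr b2.1, b2.2⟩
  have sAll : (A1 ∪ P) ∪ A2 ⊆ S := union_subset (union_subset sA1 sP) sA2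
  refine ⟨⟨_, sA1 b1.1⟩, ?_⟩
  refine isPreconnected_of_forall ((r / 2 : ℝ) : ℂ) ?_
  intro z hz
  obtain ⟨hz1, hz2, hz3⟩ := hz
  have hz0 : 0 < ‖z‖ := by linarith
  have hz0' : (‖z‖ : ℂ) ≠ 0 := by exact_mod_cast hz0.ne'
  set e : ℂ := z / ‖z‖ with he
  have hen : ‖e‖ = 1 := by
    rw [he, norm_div, Complex.norm_real, norm_norm, div_self hz0.ne']
  have hze : z = (‖z‖ : ℝ) * e := by
    rw [he]; field_simp
  have hnorm : ∀ t : ℝ, 0 < t → ‖(t : ℂ) * e‖ = t := by
    intro t ht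
    rw [norm_mul, Complex.norm_real, Real.norm_eq_abs, abs_of_pos ht, hen, mul_one]
  -- convexity of the bad set
  have hconv : Convex ℝ {t : ℝ | ‖(t : ℂ) * e + r‖ ≤ δ} := by
    intro x hx y hy a b ha hb hab
    simp only [mem_ofPred_eq, smul_eq_mul] at *
    have : ((a * x + b * y : ℝ) : ℂ) * e + r = (a : ℂ) * (x * e + r) + (b : ℂ) * (y * e + r) := by
      have hab' : (a : ℂ) + b = 1 := by exact_mod_cast hab
      push_cast
      linear_combination (-(r : ℂ)) * hab'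
    rw [this]
    calc ‖(a : ℂ) * (x * e + r) + (b : ℂ) * (y * e + r)‖
        ≤ ‖(a : ℂ) * (x * e + r)‖ + ‖(b : ℂ) * (y * e + r)‖ := norm_add_le _ _
      _ = a * ‖(x : ℂ) * e + r‖ + b * ‖(y : ℂ) * e + r‖ := by
          rw [norm_mul, norm_mul, Complex.norm_real, Complex.norm_real, Real.norm_eq_abs,
            Real.norm_eq_abs, abs_of_nonneg ha, abs_of_nonneg hb]
      _ ≤ a * δ + b * δ := by gcongr
      _ = δ := by rw [← add_mul, hab, one_mul]
  have hzbad : ¬ (‖(‖z‖ : ℂ) * e + r‖ ≤ δ) := by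
    have : ((‖z‖ : ℝ) : ℂ) * e = z := hze.symm
    rw [this]; exact not_le.mpr hz3
  have hcases : (∀ t : ℝ, ‖z‖ ≤ t → δ < ‖(t : ℂ) * e + r‖) ∨
      (∀ t : ℝ, t ≤ ‖z‖ → δ < ‖(t : ℂ) * e + r‖) := by
    by_contra hcon
    push Not at hcon
    obtain ⟨⟨t1, ht1, h1⟩, ⟨t2, ht2, h2⟩⟩ := hcon
    exact hzbad (hconv.ordConnected.out h2 h1 ⟨ht2, ht1⟩)
  have hcont : Continuous fun t : ℝ => (t : ℂ) * e := by fun_prop
  by_cases hsmall : ‖z‖ < r - δ
  · exact ⟨_, sAll, Or.inl (Or.inl b1.1), Or.inl (Or.inl ⟨hz1, hsmall⟩), cAll.isPreconnected⟩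
  by_cases hlarge : r + δ < ‖z‖
  · exact ⟨_, sAll, Or.inl (Or.inl b1.1), Or.inr ⟨hlarge, hz2⟩, cAll.isPreconnected⟩
  push Not at hsmall hlarge
  rcases hcases with h | h
  · -- move outward
    set Q : Set ℂ := (fun t : ℝ => (t : ℂ) * e) '' Ico ‖z‖ ρ with hQ
    have sQ : Q ⊆ S := by
      rintro _ ⟨t, ⟨ht1, ht2⟩, rfl⟩
      have ht0 : 0 < t := by linarith
      refine ⟨?_, ?_, h t ht1⟩
      · simp only [hnorm t ht0]; linarith
      · simp only [hnorm t ht0]; exact ht2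
    have cQ : IsPreconnected Q := isPreconnected_Ico.image _ hcont.continuousOn
    have hmeet : (((A1 ∪ P) ∪ A2) ∩ Q).Nonempty := by
      refine ⟨(((r + δ + ρ) / 2 : ℝ) : ℂ) * e, Or.inr ?_, ⟨(r + δ + ρ) / 2, ⟨?_, ?_⟩, rfl⟩⟩
      · simp only [hA2, mem_ofPred_eq]
        rw [hnorm _ (by linarith)]
        constructor <;> linarith
      · linarith
      · linarith
    refine ⟨((A1 ∪ P) ∪ A2) ∪ Q, union_subset sAll sQ, Or.inl (Or.inl (Or.inl b1.1)),
      Or.inr ⟨‖z‖, ⟨le_rfl, hz2⟩, hze.symm⟩, ?_⟩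
    obtain ⟨q, hq1, hq2⟩ := hmeet
    exact IsPreconnected.union q hq1 hq2 cAll.isPreconnected cQ
  · set Q : Set ℂ := (fun t : ℝ => (t : ℂ) * e) '' Ioc (r / 3) ‖z‖ with hQ
    have sQ : Q ⊆ S := by
      rintro _ ⟨t, ⟨ht1, ht2⟩, rfl⟩
      have ht0 : 0 < t := by linarith
      refine ⟨?_, ?_, h t ht2⟩
      · simp only [hnorm t ht0]; exact ht1
      · simp only [hnorm t ht0]; linarith
    have cQ : IsPreconnected Q := isPreconnected_Ioc.image _ hcont.continuousOn
    have hmeet : (((A1 ∪ P) ∪ A2) ∩ Q).Nonempty := by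
      refine ⟨((r / 2 : ℝ) : ℂ) * e, Or.inl (Or.inl ?_), ⟨r / 2, ⟨?_, ?_⟩, rfl⟩⟩
      · simp only [hA1, mem_ofPred_eq]
        rw [hnorm _ (by linarith)]
        constructor <;> linarith
      · linarith
      · linarith
    refine ⟨((A1 ∪ P) ∪ A2) ∪ Q, union_subset sAll sQ, Or.inl (Or.inl (Or.inl b1.1)),
      Or.inr ⟨‖z‖, ⟨hz1, le_rfl⟩, hze.symm⟩, ?_⟩
    obtain ⟨q, hq1, hq2⟩ := hmeet
    exact IsPreconnected.union q hq1 hq2 cAll.isPreconnected cQ

/-- A connected set which misses a circle about `0` and has a point inside is inside. -/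
theorem subset_ball_of_disjoint_sphere (V : Set ℂ) (hV : IsPreconnected V) (s : ℝ)
    (hd : Disjoint V (sphere 0 s)) (z : ℂ) (hz : z ∈ V) (hzs : ‖z‖ < s) :
    V ⊆ ball 0 s := by
  refine hV.subset_left_of_subset_union isOpen_ball (isClosed_closedBall (x := (0 : ℂ))
    (ε := s)).isOpen_compl ?_ ?_ ⟨z, hz, by simpa using hzs⟩
  · rw [Set.disjoint_left]
    intro w hw hw'
    exact hw' (ball_subset_closedBall hw)
  · intro w hw
    have hws : w ∉ sphere (0 : ℂ) s := fun h => hd.le_bot ⟨hw, h⟩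
    by_cases h : ‖w‖ < s
    · left; simpa using h
    · right
      simp only [mem_sphere_iff_norm, sub_zero] at hws
      simp only [mem_compl_iff, mem_closedBall, dist_zero_right]
      intro h2
      exact hws (le_antisymm h2 (not_lt.mp h))

/-- A bounded open set with boundary in `U` is clopen in the complement of `U` in the sphere. -/
private lemma clopen_of_frontier_subset (U E : Set ℂ) (hE : IsOpen E)
    (hEb : Bornology.IsBounded E) (hfr : frontier E ⊆ U) :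
    IsOpen ((fun z : ℂ => (z : OnePoint ℂ)) '' E) ∧
    IsOpen ((fun z : ℂ => (z : OnePoint ℂ)) '' closure E)ᶜ ∧
    sphereCompl U ⊆ ((fun z : ℂ => (z : OnePoint ℂ)) '' E) ∪
      ((fun z : ℂ => (z : OnePoint ℂ)) '' closure E)ᶜ ∧
    Disjoint ((fun z : ℂ => (z : OnePoint ℂ)) '' E)
      ((fun z : ℂ => (z : OnePoint ℂ)) '' closure E)ᶜ := by
  refine ⟨OnePoint.isOpen_image_coe.mpr hE, ?_, ?_, ?_⟩
  · rw [isOpen_compl_iff]
    exact OnePoint.isClosed_image_coe.mpr ⟨isClosed_closure, hEb.isCompact_closure⟩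
  · intro x hx
    by_cases h : x ∈ (fun z : ℂ => (z : OnePoint ℂ)) '' closure E
    · left
      obtain ⟨z, hz, rfl⟩ := h
      refine ⟨z, ?_, rfl⟩
      by_contra hzE
      have : z ∈ frontier E := by
        rw [hE.frontier_eq]
        exact ⟨hz, hzE⟩
      exact hx ⟨z, hfr this, rfl⟩
    · right; exact h
  · rw [Set.disjoint_left]
    rintro x ⟨z, hz, rfl⟩ h
    exact h ⟨z, subset_closure hz, rfl⟩

private lemma mk_ne_mk (U E : Set ℂ) (hE : IsOpen E)
    (hEb : Bornology.IsBounded E) (hfr : frontier E ⊆ U) (x y : sphereCompl U)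
    (hx : (x : OnePoint ℂ) ∈ (fun z : ℂ => (z : OnePoint ℂ)) '' E)
    (hy : (y : OnePoint ℂ) ∉ (fun z : ℂ => (z : OnePoint ℂ)) '' E) :
    ConnectedComponents.mk x ≠ ConnectedComponents.mk y := by
  obtain ⟨o1, o2, hcov, hdis⟩ := clopen_of_frontier_subset U E hE hEb hfr
  have hclopen : IsClopen ((Subtype.val : sphereCompl U → OnePoint ℂ) ⁻¹'
      ((fun z : ℂ => (z : OnePoint ℂ)) '' E)) := by
    constructor
    · have : ((Subtype.val : sphereCompl U → OnePoint ℂ) ⁻¹'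
        ((fun z : ℂ => (z : OnePoint ℂ)) '' E)) =
        ((Subtype.val : sphereCompl U → OnePoint ℂ) ⁻¹'
        ((fun z : ℂ => (z : OnePoint ℂ)) '' closure E)ᶜ)ᶜ := by
        ext w
        constructor
        · intro hw hw'
          exact hdis.le_bot ⟨hw, hw'⟩
        · intro hw
          rcases hcov w.2 with h | h
          · exact h
          · exact absurd h hw
      rw [this]
      exact (o2.preimage continuous_subtype_val).isClosed_compl
    · exact o1.preimage continuous_subtype_val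
  intro h
  rw [ConnectedComponents.coe_eq_coe'] at h
  have h2 := hclopen.connectedComponent_subset hx
  have h3 : y ∈ connectedComponent x := by
    have := connectedComponent_eq h
    rw [← this]
    exact mem_connectedComponent
  exact hy (h2 h3)

/-- A set which contains a circle about `0`, but not `0`, surrounds `0`. -/
theorem surroundsZero_of_sphere_subset (U : Set ℂ) (s : ℝ) (hs : 0 < s) (h0 : (0 : ℂ) ∉ U)
    (hU : sphere (0 : ℂ) s ⊆ U) : SurroundsZero U ∧ MultiplyConnected U := by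
  have hfr : frontier (ball (0 : ℂ) s) ⊆ U := frontier_ball_subset_sphere.trans hU
  obtain ⟨o1, o2, hcov, hdis⟩ := clopen_of_frontier_subset U (ball 0 s) isOpen_ball
    isBounded_ball hfr
  have h0S : ((0 : ℂ) : OnePoint ℂ) ∈ sphereCompl U := by
    rintro ⟨z, hz, hz0⟩
    have : z = 0 := OnePoint.coe_injective hz0
    exact h0 (this ▸ hz)
  have hinfS : (OnePoint.infty : OnePoint ℂ) ∈ sphereCompl U := by
    rintro ⟨z, _, hz0⟩
    exact OnePoint.coe_ne_infty z hz0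
  have h0ball : ((0 : ℂ) : OnePoint ℂ) ∈ (fun z : ℂ => (z : OnePoint ℂ)) '' ball (0 : ℂ) s :=
    ⟨0, by simpa using hs, rfl⟩
  constructor
  · refine ⟨h0, (fun z : ℂ => (z : OnePoint ℂ)) ⁻¹'
      connectedComponentIn (sphereCompl U) ((0 : ℂ) : OnePoint ℂ), ?_, ?_⟩
    · have hsub : connectedComponentIn (sphereCompl U) ((0 : ℂ) : OnePoint ℂ) ⊆
          (fun z : ℂ => (z : OnePoint ℂ)) '' ball (0 : ℂ) s :=
        isPreconnected_connectedComponentIn.subset_left_of_subset_union o1 o2 hdis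
          ((connectedComponentIn_subset _ _).trans hcov)
          ⟨_, mem_connectedComponentIn h0S, h0ball⟩
      refine isBounded_ball.subset (?_ : _ ⊆ ball (0 : ℂ) s)
      intro z hz
      obtain ⟨w, hw, hwz⟩ := hsub hz
      have : w = z := OnePoint.coe_injective hwz
      exact this ▸ hw
    · have hsub : connectedComponentIn (sphereCompl U) ((0 : ℂ) : OnePoint ℂ) ⊆
          (fun z : ℂ => (z : OnePoint ℂ)) '' ball (0 : ℂ) s :=
        isPreconnected_connectedComponentIn.subset_left_of_subset_union o1 o2 hdis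
          ((connectedComponentIn_subset _ _).trans hcov)
          ⟨_, mem_connectedComponentIn h0S, h0ball⟩
      ext x
      constructor
      · intro hx
        obtain ⟨w, _, rfl⟩ := hsub hx
        exact ⟨w, hx, rfl⟩
      · rintro ⟨w, hw, rfl⟩
        exact hw
  · refine ⟨⟨ConnectedComponents.mk ⟨_, h0S⟩, ConnectedComponents.mk ⟨_, hinfS⟩, ?_⟩⟩
    refine mk_ne_mk U (ball 0 s) isOpen_ball isBounded_ball hfr _ _ h0ball ?_
    rintro ⟨z, _, hz0⟩
    exact OnePoint.coe_ne_infty z hz0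

/-- Infinitely many disjoint bounded open sets `E n` with boundary in `U`, each containing a point
not in `U`, make the complement of `U` in the sphere have infinitely many components. -/
theorem infinitelyConnected_of (U : Set ℂ) (E : ℕ → Set ℂ) (ζ : ℕ → ℂ)
    (hE : ∀ n, IsOpen (E n)) (hEb : ∀ n, Bornology.IsBounded (E n))
    (hfr : ∀ n, frontier (E n) ⊆ U) (hdisj : ∀ m n, m ≠ n → Disjoint (E m) (E n))
    (hζ : ∀ n, ζ n ∈ E n) (hζU : ∀ n, ζ n ∉ U) : InfinitelyConnected U := by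
  have hS : ∀ n, ((ζ n : ℂ) : OnePoint ℂ) ∈ sphereCompl U := by
    rintro n ⟨z, hz, hz0⟩
    have : z = ζ n := OnePoint.coe_injective hz0
    exact hζU n (this ▸ hz)
  refine Infinite.of_injective (fun n => ConnectedComponents.mk (⟨_, hS n⟩ : sphereCompl U)) ?_
  intro m n hmn
  by_contra hne
  refine mk_ne_mk U (E m) (hE m) (hEb m) (hfr m) ⟨_, hS m⟩ ⟨_, hS n⟩ ⟨ζ m, hζ m, rfl⟩ ?_ hmn
  rintro ⟨z, hz, hz0⟩
  have : z = ζ n := OnePoint.coe_injective hz0
  exact (hdisj m n hne).le_bot ⟨this ▸ hz, hζ n⟩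

end Pool.Agent.Lib.MP_8c76c5_an
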