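import Pool.Agent.Lib.MP_8c76c5_an.Data
import Pool.Agent.Lib.MP_8c76c5_an.Fatou
import Pool.Agent.Lib.MP_8c76c5_an.Harnack
import Pool.Agent.Lib.MP_8c76c5_an.Topo

/-!
# The dynamics of a function with Baker data
-/

set_option autoImplicit false

open Set Filter Topology Metric

namespace Pool.Agent.Lib.MP_8c76c5_an

namespace BakerData

variable {f : ℂ → ℂ} {r ρ : ℕ → ℝ}

/-- the radius of the excluded disc -/
noncomputable def del (r : ℕ → ℝ) (m : ℕ) : ℝ := r m / (2 * (m + 2))

/-- the annulus minus a disc -/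
def WW (r ρ : ℕ → ℝ) (m : ℕ) : Set ℂ :=
  {z : ℂ | r m / 3 < ‖z‖ ∧ ‖z‖ < ρ m ∧ del r m < ‖z + r m‖}

/-- the Fatou component -/
def UU (f : ℂ → ℂ) (r : ℕ → ℝ) (m : ℕ) : Set ℂ :=
  connectedComponentIn (fatouSet f) ((r m / 2 : ℝ) : ℂ)

lemma del_pos (h : BakerData f r ρ) (m : ℕ) : 0 < del r m := by
  have := h.r_pos m
  unfold del; positivity

lemma del_le (h : BakerData f r ρ) (m : ℕ) : del r m ≤ r m / 4 := by
  unfold del
  apply div_le_div_of_nonneg_left (h.r_pos m).le (by norm_num)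
  have : (0:ℝ) ≤ m := by positivity
  linarith

lemma norm_r (h : BakerData f r ρ) (m : ℕ) : ‖(r m : ℂ)‖ = r m := by
  rw [Complex.norm_real, Real.norm_of_nonneg (h.r_pos m).le]

lemma isOpen_WW (m : ℕ) : IsOpen (WW r ρ m) := by
  unfold WW
  refine (isOpen_lt continuous_const continuous_norm).inter
    ((isOpen_lt continuous_norm continuous_const).inter
      (isOpen_lt continuous_const (continuous_id.add continuous_const).norm))

lemma isConnected_WW (h : BakerData f r ρ) (m : ℕ) : IsConnected (WW r ρ m) :=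
  isConnected_annulus_diff (r m) (ρ m) (del r m) (h.r_pos m) (h.two_r_le m) (h.del_pos m)
    (h.del_le m)

lemma map_closed (h : BakerData f r ρ) (m : ℕ) (z : ℂ) (h1 : r m / 3 ≤ ‖z‖) (h2 : ‖z‖ ≤ ρ m)
    (h3 : del r m ≤ ‖z + r m‖) : f z ∈ WW r ρ (m + 1) := by
  have hl := h.lower m z h1 h2 h3
  have hu := h.upper m z h2
  have hr := h.r_pos (m + 1)
  refine ⟨by linarith, hu, ?_⟩
  have hd := h.del_le (m + 1)
  have h4 : ‖f z‖ ≤ ‖f z + r (m + 1)‖ + r (m + 1) := by
    calc ‖f z‖ = ‖(f z + r (m + 1)) - r (m + 1)‖ := by ring_nf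
      _ ≤ ‖f z + r (m + 1)‖ + ‖(r (m + 1) : ℂ)‖ := norm_sub_le _ _
      _ = _ := by rw [h.norm_r]
  linarith

lemma map_WW (h : BakerData f r ρ) (m : ℕ) (z : ℂ) (hz : z ∈ WW r ρ m) :
    f z ∈ WW r ρ (m + 1) := h.map_closed m z hz.1.le hz.2.1.le hz.2.2.le

lemma iterate_WW (h : BakerData f r ρ) (m : ℕ) (z : ℂ) (hz : z ∈ WW r ρ m) (k : ℕ) :
    f^[k] z ∈ WW r ρ (m + k) := by
  induction k with
  | zero => exact hz
  | succ k ih =>
    rw [Function.iterate_succ_apply']
    exact h.map_WW _ _ ih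

lemma diverges_WW (h : BakerData f r ρ) (m : ℕ) :
    DivergesLocallyUniformlyOn (fun k => f^[k]) (WW r ρ m) := by
  intro M z _
  refine ⟨WW r ρ m, self_mem_nhdsWithin, ?_⟩
  have h1 : Tendsto (fun k => r (m + k)) atTop atTop := by
    have := h.r_tendsto.comp (tendsto_add_atTop_nat m)
    refine this.congr ?_
    intro k
    simp only [Function.comp]
    rw [add_comm]
  filter_upwards [h1.eventually_gt_atTop (3 * M)] with k hk w hw
  have := (h.iterate_WW m w hw k).1
  linarith

lemma WW_subset_fatou (h : BakerData f r ρ) (m : ℕ) : WW r ρ m ⊆ fatouSet f :=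
  subset_fatouSet_of_diverges f _ (isOpen_WW m) (h.diverges_WW m)

lemma mem_WW_half (h : BakerData f r ρ) (m : ℕ) (z : ℂ) (hz : ‖z‖ = r m / 2) :
    z ∈ WW r ρ m := by
  have hr := h.r_pos m
  have hd := h.del_le m
  have h2 := h.two_r_le m
  refine ⟨by linarith, by linarith, ?_⟩
  have h4 : r m ≤ ‖z + r m‖ + ‖z‖ := by
    calc r m = ‖(r m : ℂ)‖ := (h.norm_r m).symm
      _ = ‖(z + r m) - z‖ := by ring_nf
      _ ≤ _ := norm_sub_le _ _
  linarith

lemma norm_half (h : BakerData f r ρ) (m : ℕ) : ‖((r m / 2 : ℝ) : ℂ)‖ = r m / 2 := by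
  rw [Complex.norm_real, Real.norm_of_nonneg (by linarith [h.r_pos m])]

lemma half_mem_WW (h : BakerData f r ρ) (m : ℕ) : ((r m / 2 : ℝ) : ℂ) ∈ WW r ρ m :=
  h.mem_WW_half m _ (h.norm_half m)

lemma half_mem_UU (h : BakerData f r ρ) (m : ℕ) : ((r m / 2 : ℝ) : ℂ) ∈ UU f r m :=
  mem_connectedComponentIn (h.WW_subset_fatou m (h.half_mem_WW m))

lemma WW_subset_UU (h : BakerData f r ρ) (m : ℕ) : WW r ρ m ⊆ UU f r m :=
  (h.isConnected_WW m).isPreconnected.subset_connectedComponentIn (h.half_mem_WW m)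
    (h.WW_subset_fatou m)

lemma sphere_subset_UU (h : BakerData f r ρ) (m : ℕ) : sphere (0 : ℂ) (r m / 2) ⊆ UU f r m := by
  intro z hz
  rw [mem_sphere_zero_iff_norm] at hz
  exact h.WW_subset_UU m (h.mem_WW_half m z hz)

lemma isOpenMap (h : BakerData f r ρ) : IsOpenMap f := by
  have hA : AnalyticOnNhd ℂ f univ := fun z _ => h.entire.analyticAt z
  rcases hA.is_constant_or_isOpenMap with hc | ho
  · exfalso
    obtain ⟨w, hw⟩ := hc
    have := h.mono 0 1 (by simp)
    rw [hw, hw] at this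
    exact lt_irrefl _ this
  · exact ho

lemma isOpen_component (f : ℂ → ℂ) (z : ℂ) : IsOpen (connectedComponentIn (fatouSet f) z) :=
  (isOpen_fatouSet f).connectedComponentIn

lemma component_eq {f : ℂ → ℂ} {z w : ℂ}
    (h : (connectedComponentIn (fatouSet f) z ∩ connectedComponentIn (fatouSet f) w).Nonempty) :
    connectedComponentIn (fatouSet f) z = connectedComponentIn (fatouSet f) w := by
  obtain ⟨x, hx1, hx2⟩ := h
  rw [connectedComponentIn_eq hx1, connectedComponentIn_eq hx2]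

/-- a component is relatively closed in the Fatou set -/
lemma mem_component_of_closure {f : ℂ → ℂ} {z v : ℂ} (hv : v ∈ fatouSet f)
    (hc : v ∈ closure (connectedComponentIn (fatouSet f) z)) :
    v ∈ connectedComponentIn (fatouSet f) z := by
  have h1 : v ∈ connectedComponentIn (fatouSet f) v := mem_connectedComponentIn hv
  have h2 := mem_closure_iff.1 hc _ (isOpen_component f v) h1
  rw [← component_eq h2]
  exact h1

/-- a component mapping into a component at one point does so everywhere -/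
lemma image_component (h : BakerData f r ρ) {z w x : ℂ}
    (hx : x ∈ connectedComponentIn (fatouSet f) z)
    (hfx : f x ∈ connectedComponentIn (fatouSet f) w) :
    f '' connectedComponentIn (fatouSet f) z ⊆ connectedComponentIn (fatouSet f) w := by
  rw [connectedComponentIn_eq hfx]
  refine IsPreconnected.subset_connectedComponentIn ?_ (mem_image_of_mem f hx) ?_
  · exact isPreconnected_connectedComponentIn.image f h.entire.continuous.continuousOn
  · rintro _ ⟨y, hy, rfl⟩
    exact map_mem_fatouSet f h.entire.continuous h.isOpenMap y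
      (connectedComponentIn_subset _ _ hy)

lemma map_UU (h : BakerData f r ρ) (m : ℕ) : f '' UU f r m ⊆ UU f r (m + 1) :=
  h.image_component (h.half_mem_UU m)
    (h.WW_subset_UU (m + 1) (h.map_WW m _ (h.half_mem_WW m)))

lemma iterate_UU (h : BakerData f r ρ) (k m : ℕ) : f^[k] '' UU f r m ⊆ UU f r (m + k) := by
  induction k with
  | zero => simp
  | succ k ih =>
    rintro _ ⟨z, hz, rfl⟩
    rw [Function.iterate_succ_apply']
    exact h.map_UU (m + k) (mem_image_of_mem f (ih (mem_image_of_mem _ hz)))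

lemma tendsto_of_diverges {F : ℕ → ℂ → ℂ} {V : Set ℂ} (hV : DivergesLocallyUniformlyOn F V)
    {z : ℂ} (hz : z ∈ V) : Tendsto (fun k => ‖F k z‖) atTop atTop := by
  rw [Filter.tendsto_atTop]
  intro M
  obtain ⟨N, hN, hk⟩ := hV M z hz
  filter_upwards [hk] with k hk
  exact (hk z (mem_of_mem_nhdsWithin hz hN)).le

lemma diverges_UU (h : BakerData f r ρ) (m : ℕ) :
    DivergesLocallyUniformlyOn (fun k => f^[k]) (UU f r m) :=
  diverges_on_component f _ _ (h.half_mem_UU m)
    (tendsto_of_diverges (h.diverges_WW m) (h.half_mem_WW m))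

lemma escape_UU (h : BakerData f r ρ) (m : ℕ) {z : ℂ} (hz : z ∈ UU f r m) :
    Tendsto (fun k => ‖f^[k] z‖) atTop atTop :=
  tendsto_of_diverges (h.diverges_UU m) hz

lemma notMem_of_iterate_zero (h : BakerData f r ρ) (m : ℕ) {z : ℂ} (k : ℕ) (hz : f^[k] z = 0) :
    z ∉ UU f r m := by
  intro hU
  have h1 := (h.escape_UU m hU).eventually_gt_atTop 0
  obtain ⟨N, hN⟩ := eventually_atTop.1 h1
  have h2 := hN (N + k) (by omega)
  have h3 : f^[N + k] z = 0 := by
    rw [Function.iterate_add_apply, hz]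
    exact Function.iterate_fixed h.map_zero N
  rw [h3, norm_zero] at h2
  exact lt_irrefl _ h2

lemma norm_le_map (h : BakerData f r ρ) (m : ℕ) (z : ℂ) (hz : z ∈ WW r ρ m) :
    ‖z‖ ≤ ‖f z‖ := by
  have h1 := h.lower m z hz.1.le hz.2.1.le hz.2.2.le
  have h2 := h.rho_lt m
  have h3 := h.r_pos (m + 1)
  have h4 := hz.2.1
  have h5 := h.r_pos m
  have h6 := h.two_r_le m
  linarith

lemma norm_le_iterate (h : BakerData f r ρ) (j m : ℕ) (z : ℂ) (hz : z ∈ WW r ρ m) :
    ‖f z‖ ≤ ‖f^[j + 1] z‖ := by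
  induction j with
  | zero => simp
  | succ j ih =>
    refine ih.trans ?_
    rw [Function.iterate_succ_apply' f (j + 1)]
    exact h.norm_le_map _ _ (h.iterate_WW m z hz (j + 1))

/-- the components are disjoint -/
lemma disjoint_UU_of_lt (h : BakerData f r ρ) {m n : ℕ} (hmn : m < n) :
    Disjoint (UU f r m) (UU f r n) := by
  by_contra hcon
  rw [Set.not_disjoint_iff_nonempty_inter] at hcon
  have heq : UU f r m = UU f r n := component_eq hcon
  obtain ⟨j, rfl⟩ : ∃ j, n = m + (j + 1) := ⟨n - m - 1, by omega⟩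
  set w : ℂ := ((r m / 2 : ℝ) : ℂ) with hw
  have hwW : w ∈ WW r ρ m := h.half_mem_WW m
  have hwU : w ∈ UU f r m := h.half_mem_UU m
  have hu : f^[j + 1] w ∈ UU f r m := by
    rw [heq]
    exact h.WW_subset_UU _ (h.iterate_WW m w hwW (j + 1))
  obtain ⟨K, hK⟩ := harnack_chain f h.entire (UU f r m) (isOpen_component f _)
    isPreconnected_connectedComponentIn (h.diverges_UU m) w (f^[j + 1] w) hwU hu
  have h1 := (h.escape_UU m hwU).eventually_gt_atTop 1
  obtain ⟨M, hM⟩ := exists_nat_gt K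
  obtain ⟨k, hk1, hk2, hk3⟩ := (hK.and (h1.and (eventually_ge_atTop (2 * M)))).exists
  set u := f^[k] w with hu
  have huW : u ∈ WW r ρ (m + k) := h.iterate_WW m w hwW k
  have h2 : f^[k] (f^[j + 1] w) = f^[j + 1] u := by
    rw [hu, ← Function.iterate_add_apply, ← Function.iterate_add_apply, add_comm]
  rw [h2] at hk1
  have h3 : ‖u‖ ^ ((m + k) / 2) ≤ ‖f^[j + 1] u‖ :=
    (h.growth (m + k) u huW.1 huW.2.1 huW.2.2).trans (h.norm_le_iterate j (m + k) u huW)
  have h4 : 0 < Real.log ‖u‖ := Real.log_pos hk2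
  have h5 : Real.log (‖u‖ ^ ((m + k) / 2)) ≤ Real.log ‖f^[j + 1] u‖ :=
    Real.log_le_log (by positivity) h3
  rw [Real.log_pow] at h5
  have h6 : (((m + k) / 2 : ℕ) : ℝ) * Real.log ‖u‖ ≤ K * Real.log ‖u‖ := h5.trans hk1
  have h7 : (((m + k) / 2 : ℕ) : ℝ) ≤ K := le_of_mul_le_mul_right h6 h4
  have h8 : M ≤ (m + k) / 2 := by omega
  have h9 : (M : ℝ) ≤ (((m + k) / 2 : ℕ) : ℝ) := by exact_mod_cast h8
  linarith

lemma disjoint_UU (h : BakerData f r ρ) {m n : ℕ} (hmn : m ≠ n) :
    Disjoint (UU f r m) (UU f r n) := by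
  rcases lt_or_gt_of_ne hmn with h1 | h1
  · exact h.disjoint_UU_of_lt h1
  · exact (h.disjoint_UU_of_lt h1).symm

/-- The key pull-back property. -/
lemma pullback (h : BakerData f r ρ) (m : ℕ) (z : ℂ) (hz : ‖z‖ < r m / 2)
    (hfz : f z ∈ UU f r (m + 1)) : z ∈ UU f r m := by
  by_contra hcon
  have hfF : f z ∈ fatouSet f := connectedComponentIn_subset _ _ hfz
  have hzF : z ∈ fatouSet f := mem_fatouSet_of_map_mem f h.entire.continuous z hfF
  set V := connectedComponentIn (fatouSet f) z with hV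
  have hzV : z ∈ V := mem_connectedComponentIn hzF
  have hd : Disjoint V (UU f r m) := by
    by_contra hc
    rw [Set.not_disjoint_iff_nonempty_inter] at hc
    have : V = UU f r m := component_eq hc
    rw [← this] at hcon
    exact hcon hzV
  have hVb : V ⊆ ball 0 (r m / 2) :=
    subset_ball_of_disjoint_sphere V isPreconnected_connectedComponentIn (r m / 2)
      (hd.mono_right (h.sphere_subset_UU m)) z hzV hz
  have himg : f '' V ⊆ UU f r (m + 1) := h.image_component hzV hfz
  have hVc : IsCompact (closure V) :=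
    (isBounded_ball.subset hVb).isCompact_closure
  have hsub : UU f r (m + 1) ⊆ f '' V := by
    refine isPreconnected_connectedComponentIn.subset_of_closure_inter_subset
      (h.isOpenMap _ (isOpen_component f z)) ⟨f z, hfz, mem_image_of_mem f hzV⟩ ?_
    rintro w ⟨hw1, hw2⟩
    have h1 : closure (f '' V) ⊆ f '' closure V :=
      closure_minimal (image_mono subset_closure)
        (hVc.image h.entire.continuous).isClosed
    obtain ⟨v, hv, rfl⟩ := h1 hw1
    have hfv : f v ∈ fatouSet f := connectedComponentIn_subset _ _ hw2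
    have hvF := mem_fatouSet_of_map_mem f h.entire.continuous v hfv
    exact mem_image_of_mem f (mem_component_of_closure hvF hv)
  have h2 : f ((r m / 2 : ℝ) : ℂ) ∈ UU f r (m + 1) :=
    h.map_UU m (mem_image_of_mem f (h.half_mem_UU m))
  obtain ⟨v, hv, hveq⟩ := hsub h2
  have h3 := hVb hv
  rw [mem_ball_zero_iff] at h3
  have h4 := h.mono v (r m / 2) h3
  rw [hveq] at h4
  exact lt_irrefl _ h4

lemma pullback_iterate (h : BakerData f r ρ) (m : ℕ) (z : ℂ)
    (hz : ∀ j < m, ‖f^[j] z‖ < r j / 2) (hm : f^[m] z ∈ UU f r m) : z ∈ UU f r 0 := by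
  induction m with
  | zero => exact hm
  | succ m ih =>
    refine ih (fun j hj => hz j (by omega)) ?_
    rw [Function.iterate_succ_apply'] at hm
    exact h.pullback m _ (hz m (by omega)) hm

/-- The boundary circle of the excluded disc lies in the component. -/
lemma circle_subset_UU (h : BakerData f r ρ) (m : ℕ) (w : ℂ) (hw : ‖w + r m‖ = del r m) :
    w ∈ UU f r m := by
  have hr := h.r_pos m
  have hd := h.del_le m
  have hd0 := h.del_pos m
  have h2 := h.two_r_le m
  have hw1 : r m ≤ ‖w‖ + del r m := by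
    calc r m = ‖(r m : ℂ)‖ := (h.norm_r m).symm
      _ = ‖(w + r m) - w‖ := by ring_nf
      _ ≤ ‖w + r m‖ + ‖w‖ := norm_sub_le _ _
      _ = _ := by rw [hw]; ring
  have hw2 : ‖w‖ ≤ r m + del r m := by
    calc ‖w‖ = ‖(w + r m) - r m‖ := by ring_nf
      _ ≤ ‖w + r m‖ + ‖(r m : ℂ)‖ := norm_sub_le _ _
      _ = _ := by rw [hw, h.norm_r]; ring
  have hF : w ∈ fatouSet f := by
    apply mem_fatouSet_of_map_mem f h.entire.continuous
    exact h.WW_subset_fatou (m + 1)
      (h.map_closed m w (by linarith) (by linarith) hw.ge)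
  refine mem_component_of_closure hF (closure_mono (h.WW_subset_UU m) ?_)
  set g : ℝ → ℂ := fun s => -(r m : ℂ) + s * (w + r m) with hg
  have hg1 : g 1 = w := by simp [hg]
  have hgc : Continuous g := by fun_prop
  have ht : Tendsto g (𝓝[>] 1) (𝓝 w) := by
    rw [← hg1]; exact (hgc.tendsto 1).mono_left nhdsWithin_le_nhds
  refine mem_closure_of_tendsto ht ?_
  have he1 : ∀ᶠ s in 𝓝[>] (1:ℝ), r m / 3 < ‖g s‖ ∧ ‖g s‖ < ρ m := by
    have hn : Tendsto (fun s => ‖g s‖) (𝓝[>] 1) (𝓝 ‖w‖) := ht.norm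
    exact (hn.eventually_const_lt (by linarith)).and (hn.eventually_lt_const (by linarith))
  filter_upwards [he1, self_mem_nhdsWithin] with s hs1 hs2
  refine ⟨hs1.1, hs1.2, ?_⟩
  have hs3 : (1:ℝ) < s := hs2
  have h5 : g s + r m = s * (w + r m) := by simp [hg]
  rw [h5, norm_mul, hw, Complex.norm_real, Real.norm_of_nonneg (by linarith)]
  nlinarith

/-- The sets `E m`, the complementary components. -/
def EE (f : ℂ → ℂ) (r : ℕ → ℝ) (m : ℕ) : Set ℂ :=
  {z : ℂ | (∀ j < m, ‖f^[j] z‖ < r j / 3) ∧ ‖f^[m] z + r m‖ < del r m}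

lemma continuous_iterate (h : BakerData f r ρ) (j : ℕ) : Continuous (f^[j]) :=
  h.entire.continuous.iterate j

lemma isOpen_EE (h : BakerData f r ρ) (m : ℕ) : IsOpen (EE f r m) := by
  unfold EE
  refine IsOpen.inter ?_ ?_
  · have : {z : ℂ | ∀ j < m, ‖f^[j] z‖ < r j / 3} =
        ⋂ j ∈ Finset.range m, {z : ℂ | ‖f^[j] z‖ < r j / 3} := by
      ext z; simp
    show IsOpen {z : ℂ | ∀ j < m, ‖f^[j] z‖ < r j / 3}
    rw [this]
    refine isOpen_biInter_finset ?_
    intro j _
    exact isOpen_lt (h.continuous_iterate j).norm continuous_const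
  · exact isOpen_lt ((h.continuous_iterate m).add continuous_const).norm continuous_const

lemma isBounded_EE (h : BakerData f r ρ) (m : ℕ) : Bornology.IsBounded (EE f r m) := by
  cases m with
  | zero =>
    refine (isBounded_ball (x := -(r 0 : ℂ)) (r := del r 0)).subset ?_
    intro z hz
    rw [mem_ball, dist_eq_norm, sub_neg_eq_add]
    exact hz.2
  | succ m =>
    refine (isBounded_ball (x := (0 : ℂ)) (r := r 0 / 3)).subset ?_
    intro z hz
    rw [mem_ball_zero_iff]
    exact hz.1 0 (by omega)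

lemma frontier_EE (h : BakerData f r ρ) (m : ℕ) : frontier (EE f r m) ⊆ UU f r 0 := by
  intro z hz
  rw [frontier, (h.isOpen_EE m).interior_eq] at hz
  obtain ⟨hz1, hz2⟩ := hz
  have hcl : closure (EE f r m) ⊆
      {z : ℂ | (∀ j < m, ‖f^[j] z‖ ≤ r j / 3) ∧ ‖f^[m] z + r m‖ ≤ del r m} := by
    refine closure_minimal (fun z hz => ⟨fun j hj => (hz.1 j hj).le, hz.2.le⟩) ?_
    refine IsClosed.inter ?_ ?_
    · show IsClosed {z : ℂ | ∀ j < m, ‖f^[j] z‖ ≤ r j / 3}
      have : {z : ℂ | ∀ j < m, ‖f^[j] z‖ ≤ r j / 3} =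
          ⋂ j ∈ Finset.range m, {z : ℂ | ‖f^[j] z‖ ≤ r j / 3} := by
        ext z; simp
      rw [this]
      refine isClosed_biInter ?_
      intro j _
      exact isClosed_le (h.continuous_iterate j).norm continuous_const
    · exact isClosed_le ((h.continuous_iterate m).add continuous_const).norm continuous_const
  obtain ⟨hc1, hc2⟩ := hcl hz1
  have hlt : ∀ j < m, ‖f^[j] z‖ < r j / 3 := by
    intro j hj
    rcases (hc1 j hj).lt_or_eq with hh | hh
    · exact hh
    · exfalso
      have hr := h.r_pos j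
      have h2r := h.two_r_le j
      have hd := h.del_le j
      have h4 : r j ≤ ‖f^[j] z + r j‖ + ‖f^[j] z‖ := by
        calc r j = ‖(r j : ℂ)‖ := (h.norm_r j).symm
          _ = ‖(f^[j] z + r j) - f^[j] z‖ := by ring_nf
          _ ≤ _ := norm_sub_le _ _
      have h5 : del r j ≤ ‖f^[j] z + r j‖ := by linarith
      have h6 := h.lower j (f^[j] z) hh.ge (by linarith) h5
      rw [← Function.iterate_succ_apply' f j z] at h6
      have hr1 := h.r_pos (j + 1)
      rcases Nat.lt_or_ge (j + 1) m with h7 | h7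
      · have := hc1 (j + 1) h7
        linarith
      · have h8 : j + 1 = m := by omega
        rw [← h8] at hc2
        have hd1 := h.del_le (j + 1)
        have h9 : ‖f^[j + 1] z‖ ≤ ‖f^[j + 1] z + r (j + 1)‖ + r (j + 1) := by
          calc ‖f^[j + 1] z‖ = ‖(f^[j + 1] z + r (j + 1)) - r (j + 1)‖ := by ring_nf
            _ ≤ ‖f^[j + 1] z + r (j + 1)‖ + ‖(r (j + 1) : ℂ)‖ := norm_sub_le _ _
            _ = _ := by rw [h.norm_r]
        linarith
  have heq : ‖f^[m] z + r m‖ = del r m := by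
    rcases hc2.lt_or_eq with hh | hh
    · exact absurd ⟨hlt, hh⟩ hz2
    · exact hh
  refine h.pullback_iterate m z (fun j hj => ?_) (h.circle_subset_UU m _ heq)
  have := hlt j hj
  have := h.r_pos j
  linarith

lemma disjoint_EE_of_lt (h : BakerData f r ρ) {m n : ℕ} (hmn : m < n) :
    Disjoint (EE f r m) (EE f r n) := by
  rw [Set.disjoint_left]
  intro z hz1 hz2
  have h1 := hz2.1 m hmn
  have h2 := hz1.2
  have hd := h.del_le m
  have hr := h.r_pos m
  have h4 : r m ≤ ‖f^[m] z + r m‖ + ‖f^[m] z‖ := by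
    calc r m = ‖(r m : ℂ)‖ := (h.norm_r m).symm
      _ = ‖(f^[m] z + r m) - f^[m] z‖ := by ring_nf
      _ ≤ _ := norm_sub_le _ _
  linarith

lemma exists_preimage (h : BakerData f r ρ) (j : ℕ) (w : ℂ) (hw : ‖w‖ < 2 * r (j + 1)) :
    ∃ z : ℂ, ‖z‖ < r j / 3 ∧ f z = w := by
  have hr := h.r_pos j
  have hr1 := h.r_pos (j + 1)
  have hsph : ∀ z : ℂ, ‖z‖ = r j / 3 → 4 * r (j + 1) ≤ ‖f z‖ := by
    intro z hz
    have hd := h.del_le j
    have h2r := h.two_r_le j
    have h4 : r j ≤ ‖z + r j‖ + ‖z‖ := by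
      calc r j = ‖(r j : ℂ)‖ := (h.norm_r j).symm
        _ = ‖(z + r j) - z‖ := by ring_nf
        _ ≤ _ := norm_sub_le _ _
    have h5 : del r j ≤ ‖z + r j‖ := by linarith
    exact h.lower j z hz.ge (by linarith) h5
  have hfreq : ∃ᶠ z in 𝓝 (0:ℂ), f z ≠ f 0 := by
    intro hcon
    have h' : ∀ᶠ z in 𝓝 (0:ℂ), f z = (fun _ => f 0) z := by
      filter_upwards [hcon] with z hz
      exact not_not.1 hz
    have hA : AnalyticOnNhd ℂ f univ := fun z _ => h.entire.analyticAt z
    have h2 : f = fun _ => f 0 := hA.eq_of_eventuallyEq (analyticOnNhd_const) h'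
    have h4 := h.mono 0 1 (by simp)
    rw [congrFun h2 ((1:ℝ) : ℂ)] at h4
    exact lt_irrefl _ h4
  have key := (h.entire.diffContOnCl (s := ball (0 : ℂ) (r j / 3))).ball_subset_image_closedBall
    (by positivity) (ε := 4 * r (j + 1)) (fun z hz => by
      rw [mem_sphere_zero_iff_norm] at hz
      rw [h.map_zero, sub_zero]
      exact hsph z hz) hfreq
  have h0 : w ∈ ball (f 0) (4 * r (j + 1) / 2) := by
    rw [h.map_zero, mem_ball_zero_iff]; linarith
  obtain ⟨z, hz, hzw⟩ := key h0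
  rw [mem_closedBall_zero_iff] at hz
  refine ⟨z, ?_, hzw⟩
  rcases hz.lt_or_eq with hh | hh
  · exact hh
  · exfalso
    have := hsph z hh
    rw [hzw] at this
    linarith

lemma exists_iterate_preimage (h : BakerData f r ρ) (m : ℕ) (w : ℂ) (hw : ‖w‖ < 2 * r m) :
    ∃ z : ℂ, (∀ j < m, ‖f^[j] z‖ < r j / 3) ∧ f^[m] z = w := by
  induction m generalizing w with
  | zero => exact ⟨w, by simp, rfl⟩
  | succ m ih =>
    obtain ⟨w', hw1, hw2⟩ := h.exists_preimage m w hw
    have hr := h.r_pos m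
    obtain ⟨z, hz1, hz2⟩ := ih w' (by linarith)
    refine ⟨z, ?_, ?_⟩
    · intro j hj
      rcases Nat.lt_or_ge j m with h1 | h1
      · exact hz1 j h1
      · have : j = m := by omega
        rw [this, hz2]; exact hw1
    · rw [Function.iterate_succ_apply', hz2, hw2]

lemma exists_zeta (h : BakerData f r ρ) (m : ℕ) : ∃ z ∈ EE f r m, z ∉ UU f r 0 := by
  obtain ⟨w, hw1, hw2⟩ := h.zero_mem m
  have hr := h.r_pos m
  have hd := h.del_le m
  have hw1' : ‖w + r m‖ < del r m := hw1
  have hw3 : ‖w‖ < 2 * r m := by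
    have : ‖w‖ ≤ ‖w + r m‖ + r m := by
      calc ‖w‖ = ‖(w + r m) - r m‖ := by ring_nf
        _ ≤ ‖w + r m‖ + ‖(r m : ℂ)‖ := norm_sub_le _ _
        _ = _ := by rw [h.norm_r]
    linarith
  obtain ⟨z, hz1, hz2⟩ := h.exists_iterate_preimage m w hw3
  refine ⟨z, ⟨hz1, ?_⟩, ?_⟩
  · rw [hz2]; exact hw1'
  · refine h.notMem_of_iterate_zero 0 (m + 1) ?_
    rw [Function.iterate_succ_apply', hz2, hw2]

/-- The main dynamical conclusion. -/
theorem conclusion (h : BakerData f r ρ) :
    TranscendentalEntire f ∧ BakerWanderingDomain f (UU f r) ∧ InfinitelyConnected (UU f r 0) ∧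
      ∀ c, deriv f c = 0 → ∃ k, c ∈ UU f r k := by
  refine ⟨⟨h.entire, h.not_poly⟩, ?_, ?_, ?_⟩
  · refine ⟨?_, ?_, ?_, ?_, ?_⟩
    · intro k
      exact ⟨_, h.WW_subset_fatou k (h.half_mem_WW k), rfl⟩
    · intro k
      have := h.iterate_UU k 0
      rwa [zero_add] at this
    · intro m n hmn
      exact h.disjoint_UU hmn
    · intro z hz
      exact h.escape_UU 0 hz
    · refine Eventually.of_forall ?_
      intro n
      have hr := h.r_pos n
      have h0 : (0 : ℂ) ∉ UU f r n := h.notMem_of_iterate_zero n 0 rfl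
      have hs := surroundsZero_of_sphere_subset (UU f r n) (r n / 2) (by positivity) h0
        (h.sphere_subset_UU n)
      refine ⟨?_, hs.2, hs.1⟩
      refine (isBounded_ball (x := (0 : ℂ)) (r := r (n + 1) / 2)).subset ?_
      have h1 := h.rho_lt n
      have h2 := h.two_r_le n
      refine subset_ball_of_disjoint_sphere _ isPreconnected_connectedComponentIn _
        ((h.disjoint_UU (by omega : n ≠ n + 1)).mono_right (h.sphere_subset_UU (n + 1)))
        _ (h.half_mem_UU n) ?_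
      rw [h.norm_half]
      linarith
  · choose ζ hζ1 hζ2 using h.exists_zeta
    refine infinitelyConnected_of (UU f r 0) (EE f r) ζ h.isOpen_EE h.isBounded_EE
      h.frontier_EE ?_ hζ1 hζ2
    intro m n hmn
    rcases lt_or_gt_of_ne hmn with h1 | h1
    · exact h.disjoint_EE_of_lt h1
    · exact (h.disjoint_EE_of_lt h1).symm
  · intro c hc
    obtain ⟨m, h1, h2, h3⟩ := h.crit c hc
    exact ⟨m, h.WW_subset_UU m ⟨h1, h2, h3⟩⟩

end BakerData

end Pool.Agent.Lib.MP_8c76c5_an
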