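import Pool.Agent.Lib.MP_8c76c5_an.Func

set_option autoImplicit false

open Set Filter Topology

namespace Pool.Agent.Lib.MP_8c76c5_an

/-- lower sums are small -/
lemma lower_sum (m : ℕ) {s : ℝ} (hs : r m / 3 ≤ s) :
    ∑ n ∈ Finset.range m, b n s ≤ 1 / (100 * (m + 2)) * b m s := by
  induction m with
  | zero =>
    have := r_pos 0
    have h := b_nonneg 0 (s := s) (by linarith)
    simp only [Finset.range_zero, Finset.sum_empty]
    positivity
  | succ m ih =>
    have hr := r_pos m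
    have hr1 := r_pos (m + 1)
    have hmono : r m ≤ r (m + 1) := r_strictMono.monotone (by omega)
    have hs0 : 0 < s := by linarith
    have h1 := ih (by linarith)
    rw [Finset.sum_range_succ]
    have hb := b_nonneg m hs0.le
    have hm : (0:ℝ) ≤ m := by positivity
    have h2 : 1 / (100 * ((m:ℝ) + 2)) * b m s ≤ 1 / 100 * b m s := by
      gcongr
      linarith
    have h3 : b m s = (r m / s) * b (m + 1) s := by
      rw [b_succ]; field_simp
    have h4 : r m / s ≤ 3 / (20000 * (m + 2)) := by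
      rw [div_le_iff₀ hs0]
      calc r m ≤ 1 / (20000 * (m + 2)) * r (m + 1) := r_le m
        _ = 3 / (20000 * (m + 2)) * (r (m + 1) / 3) := by ring
        _ ≤ _ := by gcongr
    have hb1 := b_nonneg (m + 1) hs0.le
    have h5 : (101:ℝ) / 100 * (3 / (20000 * (m + 2))) ≤ 1 / (100 * (m + 3)) := by
      rw [div_mul_div_comm, div_le_div_iff₀ (by positivity) (by positivity)]
      linarith
    push_cast
    have h6 : ((m:ℝ) + 1 + 2) = m + 3 := by ring
    rw [h6]
    calc ∑ n ∈ Finset.range m, b n s + b m s ≤ 101 / 100 * b m s := by linarith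
      _ = 101 / 100 * (r m / s) * b (m + 1) s := by rw [h3]; ring
      _ ≤ 101 / 100 * (3 / (20000 * (m + 2))) * b (m + 1) s := by gcongr
      _ ≤ _ := by gcongr

/-- ratio in the tail -/
lemma ratio_tail (N : ℕ) {s : ℝ} (hs : s ≤ r N / 3) (n : ℕ) :
    s / r (n + (N + 1)) ≤ 1 / 4000 := by
  have h2 : r (N + 1) ≤ r (n + (N + 1)) := r_strictMono.monotone (by omega)
  have h3 := r_le' N
  have := r_pos N
  rw [div_le_div_iff₀ (r_pos _) (by norm_num)]
  linarith

/-- tails are small -/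
lemma tail_b (N : ℕ) {s : ℝ} (hs0 : 0 ≤ s) (hs : s ≤ r N / 3) :
    ∑' n, b (n + (N + 1)) s ≤ 2 * (s / r N) * b N s := by
  have h := (tail_le (fun n => b (n + (N + 1)) s) (1 / 4000) (by norm_num) (by norm_num)
    (fun n => b_nonneg _ hs0) ?_).2
  · refine h.trans ?_
    have h1 : b (0 + (N + 1)) s = (s / r N) * b N s := by
      rw [zero_add, b_succ]
    show b (0 + (N + 1)) s / (1 - 1 / 4000) ≤ _
    rw [h1]
    have h2 : 0 ≤ (s / r N) * b N s := mul_nonneg (div_nonneg hs0 (r_pos N).le) (b_nonneg N hs0)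
    rw [div_le_iff₀ (by norm_num)]
    nlinarith
  · intro n
    have h4 : n + 1 + (N + 1) = n + (N + 1) + 1 := by ring
    show b (n + 1 + (N + 1)) s ≤ 1 / 4000 * b (n + (N + 1)) s
    rw [h4, b_succ]
    exact mul_le_mul_of_nonneg_right (ratio_tail N hs n) (b_nonneg _ hs0)

/-- tails of the derivative are small -/
lemma tail_d (N : ℕ) {s : ℝ} (hs0 : 0 ≤ s) (hs : s ≤ r N / 3) :
    ∑' n, d (n + (N + 1)) s ≤ 1001 / 1000 * d (N + 1) s := by
  have h := (tail_le (fun n => d (n + (N + 1)) s) (1 / 1001) (by norm_num) (by norm_num)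
    (fun n => d_nonneg _ hs0) ?_).2
  · refine h.trans ?_
    show d (0 + (N + 1)) s / (1 - 1 / 1001) ≤ _
    rw [zero_add, div_le_iff₀ (by norm_num)]
    linarith [d_nonneg (N + 1) hs0]
  · intro n
    have h4 : n + 1 + (N + 1) = n + (N + 1) + 1 := by ring
    show d (n + 1 + (N + 1)) s ≤ 1 / 1001 * d (n + (N + 1)) s
    rw [h4]
    refine (d_succ_le _ hs0).trans ?_
    refine mul_le_mul_of_nonneg_right ?_ (d_nonneg _ hs0)
    have := ratio_tail N hs n
    linarith

/-- two-term approximation of the function -/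
lemma fn_approx (m : ℕ) (z : ℂ) (h1 : r m / 3 ≤ ‖z‖) (h2 : ‖z‖ ≤ r (m + 1) / 3) :
    ‖fn z - (t m z + t (m + 1) z)‖ ≤
      1 / (100 * (m + 2)) * b m ‖z‖ + 2 * (‖z‖ / r (m + 1)) * b (m + 1) ‖z‖ := by
  have hsum := (summable_t z).sum_add_tsum_nat_add (m + 2)
  have h3 : fn z - (t m z + t (m + 1) z) =
      ∑ n ∈ Finset.range m, t n z + ∑' n, t (n + (m + 2)) z := by
    rw [Finset.sum_range_succ, Finset.sum_range_succ] at hsum
    have : fn z = ∑' n, t n z := rfl
    rw [this, ← hsum]; ring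
  rw [h3]
  refine (norm_add_le _ _).trans (add_le_add ?_ ?_)
  · refine (norm_sum_le _ _).trans ?_
    simp_rw [norm_t]
    exact lower_sum m h1
  · have h4 : Summable (fun n => ‖t (n + (m + 2)) z‖) := by
      simp_rw [norm_t]
      exact (summable_nat_add_iff (f := fun n => b n ‖z‖) (m + 2)).2 (summable_b (norm_nonneg z))
    refine (norm_tsum_le_tsum_norm h4).trans ?_
    simp_rw [norm_t]
    exact tail_b (m + 1) (norm_nonneg z) h2

/-- two-term approximation of the derivative -/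
lemma deriv_approx (m : ℕ) (z : ℂ) (h1 : r m / 3 ≤ ‖z‖) (h2 : ‖z‖ ≤ r (m + 1) / 3) :
    ‖deriv fn z - (t' m z + t' (m + 1) z)‖ ≤
      1 / 100 * (a m * ‖z‖ ^ m) + 1001 / 1000 * d (m + 2) ‖z‖ := by
  have hsum := (summable_t' z).sum_add_tsum_nat_add (m + 2)
  have h3 : deriv fn z - (t' m z + t' (m + 1) z) =
      ∑ n ∈ Finset.range m, t' n z + ∑' n, t' (n + (m + 2)) z := by
    rw [Finset.sum_range_succ, Finset.sum_range_succ] at hsum
    rw [deriv_fn z, ← hsum]; ring
  rw [h3]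
  have hr := r_pos m
  have hz : 0 < ‖z‖ := by linarith
  refine (norm_add_le _ _).trans (add_le_add ?_ ?_)
  · refine (norm_sum_le _ _).trans ?_
    simp_rw [norm_t']
    have h5 : ‖z‖ * ∑ n ∈ Finset.range m, d n ‖z‖ ≤ m * ∑ n ∈ Finset.range m, b n ‖z‖ := by
      rw [Finset.mul_sum, Finset.mul_sum]
      refine Finset.sum_le_sum ?_
      intro n hn
      rw [Finset.mem_range] at hn
      have ha := a_pos n
      have h6 : ((n:ℝ) + 1) ≤ m := by exact_mod_cast hn
      unfold d b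
      calc ‖z‖ * (((n:ℝ) + 1) * a n * ‖z‖ ^ n) = ((n:ℝ) + 1) * (a n * ‖z‖ ^ (n + 1)) := by ring
        _ ≤ _ := by gcongr
    have h7 := lower_sum m h1
    have hm : (0:ℝ) ≤ m := by positivity
    have hb := b_nonneg m (norm_nonneg z)
    have h8 : (m:ℝ) * (1 / (100 * (m + 2))) ≤ 1 / 100 := by
      rw [mul_one_div, div_le_div_iff₀ (by positivity) (by norm_num)]; linarith
    have h9 : ‖z‖ * ∑ n ∈ Finset.range m, d n ‖z‖ ≤ 1 / 100 * b m ‖z‖ := by
      calc ‖z‖ * ∑ n ∈ Finset.range m, d n ‖z‖ ≤ m * ∑ n ∈ Finset.range m, b n ‖z‖ := h5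
        _ ≤ m * (1 / (100 * (m + 2)) * b m ‖z‖) := by gcongr
        _ = (m * (1 / (100 * (m + 2)))) * b m ‖z‖ := by ring
        _ ≤ _ := by gcongr
    have h10 : 1 / 100 * b m ‖z‖ = ‖z‖ * (1 / 100 * (a m * ‖z‖ ^ m)) := by unfold b; ring
    rw [h10] at h9
    exact le_of_mul_le_mul_left h9 hz
  · have h4 : Summable (fun n => ‖t' (n + (m + 2)) z‖) := by
      simp_rw [norm_t']
      exact (summable_nat_add_iff (f := fun n => d n ‖z‖) (m + 2)).2 (summable_d (norm_nonneg z))
    refine (norm_tsum_le_tsum_norm h4).trans ?_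
    simp_rw [norm_t']
    exact tail_d (m + 1) (norm_nonneg z) h2

end Pool.Agent.Lib.MP_8c76c5_an
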