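import Pool.Agent.Lib.MP_8c76c5_an.Seqs

set_option autoImplicit false

open Set Filter Topology

namespace Pool.Agent.Lib.MP_8c76c5_an

lemma tail_le (c : ℕ → ℝ) (q : ℝ) (hq0 : 0 ≤ q) (hq : q < 1) (hc : ∀ n, 0 ≤ c n)
    (h : ∀ n, c (n + 1) ≤ q * c n) : Summable c ∧ ∑' n, c n ≤ c 0 / (1 - q) := by
  have h1 : ∀ n, c n ≤ c 0 * q ^ n := by
    intro n
    induction n with
    | zero => simp
    | succ n ih =>
      calc c (n + 1) ≤ q * c n := h n
        _ ≤ q * (c 0 * q ^ n) := by gcongr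
        _ = _ := by ring
  have h2 : Summable (fun n => c 0 * q ^ n) :=
    (summable_geometric_of_lt_one hq0 hq).mul_left _
  have h3 : Summable c := Summable.of_nonneg_of_le hc h1 h2
  refine ⟨h3, ?_⟩
  calc ∑' n, c n ≤ ∑' n, c 0 * q ^ n := h3.tsum_le_tsum h1 h2
    _ = c 0 / (1 - q) := by
      rw [tsum_mul_left, tsum_geometric_of_lt_one hq0 hq]; rfl

/-- moduli of the terms -/
noncomputable def b (n : ℕ) (s : ℝ) : ℝ := a n * s ^ (n + 1)

/-- moduli of the terms of the derivative -/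
noncomputable def d (n : ℕ) (s : ℝ) : ℝ := (n + 1) * a n * s ^ n

lemma b_nonneg (n : ℕ) {s : ℝ} (hs : 0 ≤ s) : 0 ≤ b n s := by
  have := a_pos n; unfold b; positivity

lemma d_nonneg (n : ℕ) {s : ℝ} (hs : 0 ≤ s) : 0 ≤ d n s := by
  have := a_pos n; unfold d; positivity

lemma b_succ (n : ℕ) (s : ℝ) : b (n + 1) s = (s / r n) * b n s := by
  have := r_pos n
  unfold b; rw [a_succ, pow_succ s (n + 1)]; field_simp

lemma d_succ_le (n : ℕ) {s : ℝ} (hs : 0 ≤ s) : d (n + 1) s ≤ (2 * (s / r n)) * d n s := by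
  have := r_pos n
  have := a_pos n
  unfold d
  rw [a_succ, pow_succ s n]
  push_cast
  have h : ((n:ℝ) + 1 + 1) ≤ 2 * (n + 1) := by
    have : (0:ℝ) ≤ n := by positivity
    linarith
  calc ((n:ℝ) + 1 + 1) * (a n / r n) * (s ^ n * s)
      ≤ (2 * (n + 1)) * (a n / r n) * (s ^ n * s) := by gcongr
    _ = _ := by ring

lemma exists_r_gt (s : ℝ) : ∃ N, s < r N := by
  obtain ⟨N, hN⟩ := (r_tendsto.eventually (eventually_gt_atTop s)).exists
  exact ⟨N, hN⟩

lemma summable_d {s : ℝ} (hs : 0 ≤ s) : Summable (fun n => d n s) := by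
  obtain ⟨N, hN⟩ := exists_r_gt (4 * s)
  rw [← summable_nat_add_iff N]
  refine (tail_le (fun n => d (n + N) s) (1 / 2) (by norm_num) (by norm_num)
    (fun n => d_nonneg _ hs) ?_).1
  intro n
  have h1 := d_succ_le (n + N) hs
  have h2 : r N ≤ r (n + N) := r_strictMono.monotone (by omega)
  have h3 : s / r (n + N) ≤ 1 / 4 := by
    rw [div_le_div_iff₀ (r_pos _) (by norm_num)]; linarith
  have h4 : n + 1 + N = n + N + 1 := by ring
  show d (n + 1 + N) s ≤ 1 / 2 * d (n + N) s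
  rw [h4]
  have h5 := d_nonneg (n + N) hs
  nlinarith

lemma b_le_d (n : ℕ) {s : ℝ} (hs : 0 ≤ s) : b n s ≤ s * d n s := by
  have := a_pos n
  unfold b d
  have h : (1:ℝ) ≤ n + 1 := by
    have : (0:ℝ) ≤ n := by positivity
    linarith
  calc a n * s ^ (n + 1) = 1 * (a n * (s ^ n * s)) := by ring
    _ ≤ ((n:ℝ) + 1) * (a n * (s ^ n * s)) := by gcongr
    _ = _ := by ring

lemma summable_b {s : ℝ} (hs : 0 ≤ s) : Summable (fun n => b n s) :=
  Summable.of_nonneg_of_le (fun n => b_nonneg n hs) (fun n => b_le_d n hs)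
    ((summable_d hs).mul_left s)

/-- the terms of the series -/
noncomputable def t (n : ℕ) (z : ℂ) : ℂ := (a n : ℂ) * z ^ (n + 1)

/-- the terms of the derivative -/
noncomputable def t' (n : ℕ) (z : ℂ) : ℂ := ((n : ℂ) + 1) * (a n : ℂ) * z ^ n

/-- the entire function -/
noncomputable def fn (z : ℂ) : ℂ := ∑' n, t n z

lemma norm_t (n : ℕ) (z : ℂ) : ‖t n z‖ = b n ‖z‖ := by
  unfold t b
  rw [norm_mul, norm_pow, Complex.norm_real, Real.norm_of_nonneg (a_pos n).le]

lemma norm_t' (n : ℕ) (z : ℂ) : ‖t' n z‖ = d n ‖z‖ := by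
  unfold t' d
  rw [norm_mul, norm_mul, norm_pow, Complex.norm_real, Real.norm_of_nonneg (a_pos n).le]
  congr 2
  have : ((n : ℂ) + 1) = ((n + 1 : ℕ) : ℂ) := by push_cast; ring
  rw [this, Complex.norm_natCast]; push_cast; ring

lemma summable_t (z : ℂ) : Summable (fun n => t n z) := by
  apply Summable.of_norm
  simp_rw [norm_t]
  exact summable_b (norm_nonneg z)

lemma summable_t' (z : ℂ) : Summable (fun n => t' n z) := by
  apply Summable.of_norm
  simp_rw [norm_t']
  exact summable_d (norm_nonneg z)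

lemma hasDerivAt_t (n : ℕ) (z : ℂ) : HasDerivAt (t n) (t' n z) z := by
  have h := (hasDerivAt_pow (n + 1) z).const_mul (a n : ℂ)
  refine h.congr_deriv ?_
  unfold t'
  simp
  ring

lemma hasDerivAt_fn (z : ℂ) : HasDerivAt fn (∑' n, t' n z) z := by
  set R := ‖z‖ + 1 with hR
  have hR0 : 0 ≤ R := by positivity
  refine hasDerivAt_tsum_of_isPreconnected (u := fun n => d n R) (t := Metric.ball 0 R)
    (y₀ := z) (summable_d hR0) Metric.isOpen_ball (convex_ball _ _).isPreconnected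
    (fun n y _ => hasDerivAt_t n y) ?_ ?_ (summable_t z) ?_
  · intro n y hy
    rw [norm_t']
    rw [mem_ball_zero_iff] at hy
    have := a_pos n
    unfold d
    gcongr
  · simp [hR]
  · simp [hR]

lemma differentiable_fn : Differentiable ℂ fn := fun z => (hasDerivAt_fn z).differentiableAt

lemma deriv_fn (z : ℂ) : deriv fn z = ∑' n, t' n z := (hasDerivAt_fn z).deriv

lemma fn_zero : fn 0 = 0 := by
  unfold fn t
  simp

lemma norm_fn_le (z : ℂ) : ‖fn z‖ ≤ ∑' n, b n ‖z‖ := by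
  unfold fn
  have h : Summable (fun n => ‖t n z‖) := by
    simp_rw [norm_t]; exact summable_b (norm_nonneg z)
  refine (norm_tsum_le_tsum_norm h).trans (le_of_eq ?_)
  simp_rw [norm_t]

lemma fn_real {s : ℝ} : fn s = ((∑' n, b n s : ℝ) : ℂ) := by
  unfold fn t b
  rw [Complex.ofReal_tsum]
  congr 1
  ext n
  push_cast
  ring

lemma norm_fn_real {s : ℝ} (hs : 0 ≤ s) : ‖fn s‖ = ∑' n, b n s := by
  rw [fn_real, Complex.norm_real, Real.norm_of_nonneg]
  exact tsum_nonneg (fun n => b_nonneg n hs)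

lemma fn_mono (z : ℂ) (s : ℝ) (h : ‖z‖ < s) : ‖fn z‖ < ‖fn s‖ := by
  have hs : 0 ≤ s := (norm_nonneg z).trans h.le
  rw [norm_fn_real hs]
  refine (norm_fn_le z).trans_lt ?_
  refine (summable_b (norm_nonneg z)).tsum_lt_tsum (i := 0) ?_ ?_ (summable_b hs)
  · intro n
    have := a_pos n
    show a n * ‖z‖ ^ (n + 1) ≤ a n * s ^ (n + 1)
    gcongr
  · have := a_pos 0
    unfold b
    gcongr

lemma not_poly : ¬ ∃ p : Polynomial ℂ, ∀ z, fn z = p.eval z := by
  rintro ⟨p, hp⟩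
  -- compare growth
  set N := p.natDegree + 1 with hN
  have h1 : ∀ s : ℝ, 0 ≤ s → a N * s ^ (N + 1) ≤ ‖p.eval (s : ℂ)‖ := by
    intro s hs
    rw [← hp, norm_fn_real hs]
    exact (summable_b hs).le_tsum N (fun n _ => b_nonneg n hs)
  have h2 : Tendsto (fun s : ℝ => ‖p.eval (s : ℂ)‖ / s ^ (N + 1)) atTop (𝓝 0) := by
    have h3 : ∀ s : ℝ, 1 ≤ s → ‖p.eval (s : ℂ)‖ ≤
        (∑ i ∈ Finset.range (p.natDegree + 1), ‖p.coeff i‖) * s ^ N := by
      intro s hs
      rw [Polynomial.eval_eq_sum_range, Finset.sum_mul]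
      refine (norm_sum_le _ _).trans (Finset.sum_le_sum ?_)
      intro i hi
      rw [Finset.mem_range] at hi
      rw [norm_mul, norm_pow, Complex.norm_real, Real.norm_of_nonneg (by linarith)]
      gcongr
    have h4 : Tendsto (fun s : ℝ => (∑ i ∈ Finset.range (p.natDegree + 1), ‖p.coeff i‖) * s⁻¹)
        atTop (𝓝 0) := by
      have := tendsto_inv_atTop_zero (𝕜 := ℝ)
      simpa using this.const_mul (∑ i ∈ Finset.range (p.natDegree + 1), ‖p.coeff i‖)
    refine tendsto_of_tendsto_of_tendsto_of_le_of_le' tendsto_const_nhds h4 ?_ ?_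
    · filter_upwards [eventually_ge_atTop (1:ℝ)] with s hs
      positivity
    · filter_upwards [eventually_ge_atTop (1:ℝ)] with s hs
      have hs0 : 0 < s := by linarith
      rw [div_le_iff₀ (by positivity)]
      refine (h3 s hs).trans (le_of_eq ?_)
      rw [pow_succ s N]; field_simp
  have h5 : a N ≤ 0 := by
    refine ge_of_tendsto h2 ?_
    filter_upwards [eventually_ge_atTop (1:ℝ)] with s hs
    have hs0 : 0 < s := by linarith
    rw [le_div_iff₀ (by positivity)]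
    exact h1 s hs0.le
  exact absurd (a_pos N) (not_lt.2 h5)

end Pool.Agent.Lib.MP_8c76c5_an
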