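import Pool.Agent.Lib.MP_8c76c5_an.Est

set_option autoImplicit false

open Set Filter Topology Metric

namespace Pool.Agent.Lib.MP_8c76c5_an

lemma le_third (m : ℕ) {s : ℝ} (hs : s ≤ rho m) : s ≤ r (m + 1) / 3 := by
  have h1 := rho_le m
  have h2 := r_pos (m + 1)
  have hm : (0:ℝ) ≤ m := by positivity
  have h3 : 1 / (10000 * ((m:ℝ) + 2)) ≤ 1 / 3 := by
    apply one_div_le_one_div_of_le (by norm_num); linarith
  have h4 := mul_le_mul_of_nonneg_right h3 h2.le
  linarith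

lemma ratio_rho (m : ℕ) {s : ℝ} (hs : s ≤ rho m) :
    s / r (m + 1) ≤ 1 / (10000 * (m + 2)) := by
  rw [div_le_iff₀ (r_pos _)]
  exact hs.trans (rho_le m)

lemma t_add_t (m : ℕ) (z : ℂ) : ‖t m z + t (m + 1) z‖ = b m ‖z‖ * (‖z + r m‖ / r m) := by
  have hr := r_pos m
  have hrc : (r m : ℂ) ≠ 0 := by exact_mod_cast hr.ne'
  have h : t m z + t (m + 1) z = t m z * ((z + r m) / r m) := by
    unfold t
    rw [a_succ, pow_succ z (m + 1)]
    push_cast
    field_simp
    ring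
  rw [h, norm_mul, norm_t, norm_div, Complex.norm_real, Real.norm_of_nonneg hr.le]

lemma lower_aux (m : ℕ) (z : ℂ) (h1 : r m / 3 ≤ ‖z‖) (h2 : ‖z‖ ≤ rho m)
    (h3 : r m / (2 * (m + 2)) ≤ ‖z + r m‖) :
    b m ‖z‖ / (4 * (m + 2)) ≤ ‖fn z‖ := by
  have hr := r_pos m
  have hm : (0:ℝ) ≤ m := by positivity
  have happ := fn_approx m z h1 (le_third m h2)
  have htt := t_add_t m z
  have hb := b_nonneg m (norm_nonneg z)
  set w := ‖z + r m‖ / r m with hw
  have hw1 : 1 / (2 * (m + 2)) ≤ w := by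
    rw [hw, le_div_iff₀ hr]
    calc 1 / (2 * ((m:ℝ) + 2)) * r m = r m / (2 * (m + 2)) := by ring
      _ ≤ _ := h3
  have hw0 : 0 < w := lt_of_lt_of_le (by positivity) hw1
  have hw2 : ‖z‖ / r m ≤ 4 * (m + 2) * w := by
    have h4 : ‖z‖ ≤ ‖z + r m‖ + r m := by
      calc ‖z‖ = ‖(z + r m) - r m‖ := by ring_nf
        _ ≤ ‖z + r m‖ + ‖(r m : ℂ)‖ := norm_sub_le _ _
        _ = _ := by rw [Complex.norm_real, Real.norm_of_nonneg hr.le]
    have h5 : ‖z‖ / r m ≤ w + 1 := by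
      rw [hw, div_le_iff₀ hr, add_mul, div_mul_cancel₀ _ hr.ne', one_mul]; exact h4
    have h6 : 1 ≤ 2 * (m + 2) * w := by
      rw [div_le_iff₀ (by positivity)] at hw1; linarith
    nlinarith
  have h7 : 2 * (‖z‖ / r (m + 1)) * b (m + 1) ‖z‖ ≤ w / 1000 * b m ‖z‖ := by
    rw [b_succ]
    have h8 := ratio_rho m h2
    calc 2 * (‖z‖ / r (m + 1)) * (‖z‖ / r m * b m ‖z‖)
        ≤ 2 * (1 / (10000 * (m + 2))) * ((4 * (m + 2) * w) * b m ‖z‖) := by
          have := r_pos (m + 1)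
          gcongr
      _ = (8 / 10000 * w) * b m ‖z‖ := by field_simp; ring
      _ ≤ _ := by
          have : 8 / 10000 * w ≤ w / 1000 := by linarith
          gcongr
  have h9 : 1 / (100 * ((m:ℝ) + 2)) * b m ‖z‖ ≤ w / 50 * b m ‖z‖ := by
    have : 1 / (100 * ((m:ℝ) + 2)) ≤ w / 50 := by
      have : 1 / (100 * ((m:ℝ) + 2)) = (1 / (2 * (m + 2))) / 50 := by field_simp; norm_num
      rw [this]; gcongr
    gcongr
  have h10 : ‖t m z + t (m + 1) z‖ ≤ ‖fn z‖ + ‖fn z - (t m z + t (m + 1) z)‖ := by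
    calc ‖t m z + t (m + 1) z‖ = ‖fn z - (fn z - (t m z + t (m + 1) z))‖ := by ring_nf
      _ ≤ _ := norm_sub_le _ _
  have h11 : b m ‖z‖ / (4 * (m + 2)) ≤ b m ‖z‖ * w / 2 := by
    calc b m ‖z‖ / (4 * (m + 2)) = b m ‖z‖ * (1 / (2 * (m + 2))) / 2 := by
          field_simp; norm_num
      _ ≤ _ := by gcongr
  have h12 : 0 ≤ b m ‖z‖ * w := by positivity
  rw [htt] at h10
  nlinarith

lemma lower (m : ℕ) (z : ℂ) (h1 : r m / 3 ≤ ‖z‖) (h2 : ‖z‖ ≤ rho m)
    (h3 : r m / (2 * (m + 2)) ≤ ‖z + r m‖) : 4 * r (m + 1) ≤ ‖fn z‖ := by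
  refine le_trans ?_ (lower_aux m z h1 h2 h3)
  have := a_pos m
  have := r_pos m
  rw [r_succ]
  unfold b
  calc 4 * (a m * (r m / 3) ^ (m + 1) / (16 * (m + 2)))
      = a m * (r m / 3) ^ (m + 1) / (4 * (m + 2)) := by field_simp; norm_num
    _ ≤ _ := by gcongr

lemma upper (m : ℕ) (z : ℂ) (h2 : ‖z‖ ≤ rho m) : ‖fn z‖ < rho (m + 1) := by
  have hrho := rho_pos m
  have hr := r_pos m
  have hm : (0:ℝ) ≤ m := by positivity
  have h1 : ‖fn z‖ ≤ ‖fn (rho m : ℝ)‖ := by
    rcases h2.lt_or_eq with h | h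
    · exact (fn_mono z _ h).le
    · rw [norm_fn_real hrho.le, ← h]
      exact norm_fn_le z
  refine h1.trans_lt ?_
  have h2r := two_r_le_rho m
  have hn : ‖((rho m : ℝ) : ℂ)‖ = rho m := by
    rw [Complex.norm_real, Real.norm_of_nonneg hrho.le]
  have happ := fn_approx m (rho m : ℝ) (by rw [hn]; linarith) (by rw [hn]; exact le_third m le_rfl)
  rw [hn] at happ
  have h3 : ‖fn (rho m : ℝ)‖ ≤ ‖fn (rho m : ℝ) - (t m (rho m : ℝ) + t (m + 1) (rho m : ℝ))‖ +
      (‖t m (rho m : ℝ)‖ + ‖t (m + 1) (rho m : ℝ)‖) := by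
    calc ‖fn (rho m : ℝ)‖ = ‖(fn (rho m : ℝ) - (t m (rho m : ℝ) + t (m + 1) (rho m : ℝ))) +
          (t m (rho m : ℝ) + t (m + 1) (rho m : ℝ))‖ := by ring_nf
      _ ≤ _ := (norm_add_le _ _).trans (by gcongr; exact norm_add_le _ _)
  rw [norm_t, norm_t, hn] at h3
  have hb := b_nonneg m hrho.le
  have hb1 : 0 < b (m + 1) (rho m) := by
    have := a_pos (m + 1)
    unfold b; positivity
  have h4 : b m (rho m) ≤ 1 / 2 * b (m + 1) (rho m) := by
    have h5 : b m (rho m) = (r m / rho m) * b (m + 1) (rho m) := by rw [b_succ]; field_simp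
    rw [h5]
    have : r m / rho m ≤ 1 / 2 := by
      rw [div_le_div_iff₀ hrho (by norm_num)]; linarith
    gcongr
  have h6 : 1 / (100 * ((m:ℝ) + 2)) * b m (rho m) ≤ b m (rho m) := by
    have : 1 / (100 * ((m:ℝ) + 2)) ≤ 1 := by
      rw [div_le_one (by positivity)]; linarith
    calc _ ≤ 1 * b m (rho m) := by gcongr
      _ = _ := by ring
  have h7 : 2 * (rho m / r (m + 1)) * b (m + 1) (rho m) ≤ 1 / 2 * b (m + 1) (rho m) := by
    have h8 := ratio_rho m (le_refl (rho m))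
    have h9 : 1 / (10000 * ((m:ℝ) + 2)) ≤ 1 / 4 := by
      apply one_div_le_one_div_of_le (by norm_num); linarith
    gcongr
    linarith
  have h10 : rho (m + 1) = 4 * b (m + 1) (rho m) := by
    rw [rho_succ]; unfold b; ring
  rw [h10]
  linarith

lemma growth (m : ℕ) (z : ℂ) (h1 : r m / 3 < ‖z‖) (h2 : ‖z‖ < rho m)
    (h3 : r m / (2 * (m + 2)) < ‖z + r m‖) : ‖z‖ ^ (m / 2) ≤ ‖fn z‖ := by
  refine le_trans ?_ (lower_aux m z h1.le h2.le h3.le)
  have ha := a_pos m
  have hr := r_pos m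
  set σ := 3 * ‖z‖ / r m with hσ
  have hσ1 : 1 ≤ σ := by rw [hσ, le_div_iff₀ hr]; linarith
  have hz : ‖z‖ = σ * (r m / 3) := by rw [hσ]; field_simp
  have h4 : b m ‖z‖ / (4 * (m + 2)) = 4 * r (m + 1) * σ ^ (m + 1) := by
    unfold b
    rw [hz, r_succ, mul_pow]
    field_simp
    norm_num
  rw [h4]
  calc ‖z‖ ^ (m / 2) = σ ^ (m / 2) * (r m / 3) ^ (m / 2) := by rw [hz, mul_pow]
    _ ≤ σ ^ (m + 1) * (r m) ^ (m / 2) := by
        have h5 : m / 2 ≤ m + 1 := by omega
        gcongr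
        linarith
    _ ≤ σ ^ (m + 1) * x m := by gcongr; exact r_pow_le m
    _ ≤ σ ^ (m + 1) * (4 * r (m + 1)) := by
        have h6 : x m ≤ r (m + 1) := by
          rw [r_succ']
          have := one_le_r m
          have := x_pos m
          nlinarith
        have := r_pos (m + 1)
        gcongr
        linarith
    _ = _ := by ring

lemma frequently_ne (z₀ : ℂ) : ∃ᶠ z in 𝓝 z₀, fn z ≠ fn z₀ := by
  intro h
  have h' : ∀ᶠ z in 𝓝 z₀, fn z = (fun _ => fn z₀) z := by
    filter_upwards [h] with z hz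
    exact not_not.1 hz
  have hA : AnalyticOnNhd ℂ fn univ := fun z _ => differentiable_fn.analyticAt z
  have h2 : fn = fun _ => fn z₀ :=
    hA.eq_of_eventuallyEq (analyticOnNhd_const) h'
  have h3 : fn 0 = fn ((1:ℝ) : ℂ) := by
    rw [congrFun h2 0, congrFun h2 ((1:ℝ) : ℂ)]
  have h4 := fn_mono 0 1 (by simp)
  rw [h3] at h4
  exact lt_irrefl _ h4

lemma norm_neg_r (m : ℕ) : ‖(-(r m : ℂ))‖ = r m := by
  rw [norm_neg, Complex.norm_real, Real.norm_of_nonneg (r_pos m).le]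

lemma zero_mem (m : ℕ) : ∃ z : ℂ, ‖z + r m‖ < r m / (2 * (m + 2)) ∧ fn z = 0 := by
  have hr := r_pos m
  have ha := a_pos m
  have hm : (0:ℝ) ≤ m := by positivity
  set δ := r m / (2 * (m + 2)) with hδ
  have hδ0 : 0 < δ := by positivity
  have hδ1 : δ ≤ r m / 4 := by
    rw [hδ]; apply div_le_div_of_nonneg_left hr.le (by norm_num); linarith
  set B := b m (r m) / (m + 2) with hB
  have hb : 0 < b m (r m) := by unfold b; positivity
  have hB0 : 0 < B := by positivity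
  have hc : ‖fn (-(r m : ℂ))‖ ≤ B / 80 := by
    have happ := fn_approx m (-(r m : ℂ)) (by rw [norm_neg_r]; linarith)
      (by rw [norm_neg_r]; exact le_third m (by linarith [two_r_le_rho m]))
    have htt := t_add_t m (-(r m : ℂ))
    rw [neg_add_cancel, norm_zero, zero_div, mul_zero, norm_eq_zero] at htt
    rw [htt, sub_zero, norm_neg_r] at happ
    have h1 : b (m + 1) (r m) = b m (r m) := by
      rw [b_succ, div_self hr.ne', one_mul]
    have h2 : r m / r (m + 1) ≤ 1 / (20000 * (m + 2)) := by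
      rw [div_le_iff₀ (r_pos _)]; exact r_le m
    calc ‖fn (-(r m : ℂ))‖ ≤ _ := happ
      _ ≤ 1 / (100 * (m + 2)) * b m (r m) + 2 * (1 / (20000 * (m + 2))) * b m (r m) := by
          rw [h1]; gcongr
      _ = (101 / 10000) * B := by rw [hB]; field_simp; norm_num
      _ ≤ _ := by linarith
  have hsph : ∀ z : ℂ, ‖z + r m‖ = δ → B / 8 ≤ ‖fn z‖ := by
    intro z hz
    have hz1 : r m ≤ ‖z‖ + δ := by
      calc r m = ‖(-(r m : ℂ))‖ := (norm_neg_r m).symm
        _ = ‖z - (z + r m)‖ := by ring_nf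
        _ ≤ ‖z‖ + ‖z + r m‖ := norm_sub_le _ _
        _ = _ := by rw [hz]
    have hz2 : ‖z‖ ≤ r m + δ := by
      calc ‖z‖ = ‖(z + r m) - r m‖ := by ring_nf
        _ ≤ ‖z + r m‖ + ‖(r m : ℂ)‖ := norm_sub_le _ _
        _ = _ := by rw [hz, Complex.norm_real, Real.norm_of_nonneg hr.le]; ring
    have h1 := lower_aux m z (by linarith) (by linarith [two_r_le_rho m]) hz.ge
    refine le_trans ?_ h1
    have h2 : r m * (1 + -(1 / (2 * (m + 2)))) ≤ ‖z‖ := by
      have : r m * (1 + -(1 / (2 * (m + 2)))) = r m - δ := by rw [hδ]; ring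
      rw [this]; linarith
    have h3 : (1:ℝ) / 2 ≤ (1 + -(1 / (2 * (m + 2)))) ^ (m + 1) := by
      have h4 := one_add_mul_le_pow (a := -(1 / (2 * ((m:ℝ) + 2)))) (by
        have : 1 / (2 * ((m:ℝ) + 2)) ≤ 1 := by rw [div_le_one (by positivity)]; linarith
        linarith) (m + 1)
      refine le_trans ?_ h4
      push_cast
      have h5 : ((m:ℝ) + 1) * (1 / (2 * (m + 2))) ≤ 1 / 2 := by
        rw [mul_one_div, div_le_div_iff₀ (by positivity) (by norm_num)]; linarith
      linarith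
    have h6 : 0 ≤ 1 + -(1 / (2 * ((m:ℝ) + 2))) := by
      have : 1 / (2 * ((m:ℝ) + 2)) ≤ 1 := by rw [div_le_one (by positivity)]; linarith
      linarith
    have h7 : b m (r m) / 2 ≤ b m ‖z‖ := by
      unfold b
      calc a m * r m ^ (m + 1) / 2 = a m * (r m ^ (m + 1) * (1 / 2)) := by ring
        _ ≤ a m * (r m ^ (m + 1) * (1 + -(1 / (2 * (m + 2)))) ^ (m + 1)) := by gcongr
        _ = a m * (r m * (1 + -(1 / (2 * (m + 2))))) ^ (m + 1) := by rw [mul_pow]
        _ ≤ _ := by gcongr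
    calc B / 8 = (b m (r m) / 2) / (4 * (m + 2)) := by rw [hB]; field_simp; norm_num
      _ ≤ _ := by gcongr
  have key := (differentiable_fn.diffContOnCl (s := ball (-(r m : ℂ)) δ)).ball_subset_image_closedBall
    hδ0 (ε := 9 * B / 80) (fun z hz => ?_) (frequently_ne _)
  · have h0 : (0:ℂ) ∈ ball (fn (-(r m : ℂ))) (9 * B / 80 / 2) := by
      rw [mem_ball, dist_zero_left]
      linarith
    obtain ⟨z, hz, hz0⟩ := key h0
    rw [mem_closedBall, dist_eq_norm, sub_neg_eq_add] at hz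
    refine ⟨z, ?_, hz0⟩
    rcases hz.lt_or_eq with h | h
    · exact h
    · exfalso
      have := hsph z h
      rw [hz0, norm_zero] at this
      linarith
  · rw [mem_sphere, dist_eq_norm, sub_neg_eq_add] at hz
    have h1 := hsph z hz
    have h2 := norm_sub_norm_le (fn z) (fn (-(r m : ℂ)))
    linarith

lemma crit_aux (m : ℕ) (c : ℂ) (hc : deriv fn c = 0) (h1 : r m / 3 ≤ ‖c‖)
    (h2 : ‖c‖ ≤ r (m + 1) / 3) :
    ‖-1 + (m + 2) * ((c + r m) / r m)‖ ≤
      1 / 100 + 1001 / 1000 * ((m + 3) * (‖c‖ / r m) * (‖c‖ / r (m + 1))) := by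
  have hr := r_pos m
  have hr1 := r_pos (m + 1)
  have ha := a_pos m
  have hc0 : 0 < ‖c‖ := by linarith
  have hrc : (r m : ℂ) ≠ 0 := by exact_mod_cast hr.ne'
  have h := deriv_approx m c h1 h2
  rw [hc, zero_sub, norm_neg] at h
  have h3 : t' m c + t' (m + 1) c = (a m : ℂ) * c ^ m * (-1 + (m + 2) * ((c + r m) / r m)) := by
    unfold t'
    rw [a_succ, pow_succ c m]
    push_cast
    field_simp
    ring
  have h4 : d (m + 2) ‖c‖ = a m * ‖c‖ ^ m * ((m + 3) * (‖c‖ / r m) * (‖c‖ / r (m + 1))) := by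
    unfold d
    rw [a_succ (m + 1), a_succ m, pow_succ, pow_succ]
    push_cast
    field_simp
    ring
  rw [h3, h4, norm_mul, norm_mul, norm_pow, Complex.norm_real, Real.norm_of_nonneg ha.le] at h
  have h5 : 0 < a m * ‖c‖ ^ m := by positivity
  refine le_of_mul_le_mul_left ?_ h5
  calc _ ≤ _ := h
    _ = _ := by ring

lemma crit (c : ℂ) (hc : deriv fn c = 0) : ∃ m, r m / 3 < ‖c‖ ∧ ‖c‖ < rho m ∧
    r m / (2 * (m + 2)) < ‖c + r m‖ := by
  classical
  have hex : ∃ N, ‖c‖ ≤ r N / 3 := by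
    obtain ⟨N, hN⟩ := exists_r_gt (3 * ‖c‖)
    exact ⟨N, by linarith⟩
  set N := Nat.find hex with hN
  have hN1 : ‖c‖ ≤ r N / 3 := Nat.find_spec hex
  rcases Nat.eq_zero_or_pos N with h0 | hpos
  · exfalso
    rw [h0, r_zero] at hN1
    have hsum := (summable_t' c).sum_add_tsum_nat_add 1
    rw [← deriv_fn c, hc, Finset.sum_range_one] at hsum
    have h1 : ‖t' 0 c‖ ≤ 1001 / 1000 * d 1 ‖c‖ := by
      have h2 : t' 0 c = -∑' n, t' (n + 1) c := by linear_combination hsum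
      rw [h2, norm_neg]
      have h4 : Summable (fun n => ‖t' (n + 1) c‖) := by
        simp_rw [norm_t']
        exact (summable_nat_add_iff (f := fun n => d n ‖c‖) 1).2 (summable_d (norm_nonneg c))
      refine (norm_tsum_le_tsum_norm h4).trans ?_
      simp_rw [norm_t']
      exact tail_d 0 (norm_nonneg c) (by rw [r_zero]; exact hN1)
    rw [norm_t'] at h1
    have ha := a_pos 0
    have h5 : d 0 ‖c‖ = a 0 := by unfold d; simp
    have h6 : d 1 ‖c‖ = 2 * a 0 * ‖c‖ := by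
      unfold d; rw [a_succ, r_zero]; norm_num
    rw [h5, h6] at h1
    nlinarith
  · obtain ⟨m, hm⟩ := Nat.exists_eq_succ_of_ne_zero hpos.ne'
    have h1 : r m / 3 < ‖c‖ := by
      by_contra hcon
      have := Nat.find_min' hex (not_lt.1 hcon)
      rw [← hN] at this
      omega
    have h2 : ‖c‖ ≤ r (m + 1) / 3 := by rw [hm] at hN1; exact hN1
    have hr := r_pos m
    have hr1 := r_pos (m + 1)
    have hm0 : (0:ℝ) ≤ m := by positivity
    have hrc : (r m : ℂ) ≠ 0 := by exact_mod_cast hr.ne'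
    have haux := crit_aux m c hc h1.le h2
    refine ⟨m, h1, ?_, ?_⟩
    · by_contra hcon
      rw [not_lt] at hcon
      have h2r := two_r_le_rho m
      set σ := ‖c‖ / r m with hσ
      have hσ2 : 2 ≤ σ := by rw [hσ, le_div_iff₀ hr]; linarith
      have hq : ‖c‖ / r (m + 1) ≤ 1 / 3 := by
        rw [div_le_div_iff₀ hr1 (by norm_num)]; linarith
      have h3 : (m + 2) * σ - (m + 1) ≤ ‖-1 + ((m:ℂ) + 2) * ((c + r m) / r m)‖ := by
        have h4 : -1 + ((m:ℂ) + 2) * ((c + r m) / r m) = ((m:ℂ) + 2) * (c / r m) - (-((m:ℂ) + 1)) := by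
          field_simp; ring
        rw [h4]
        refine le_trans ?_ (norm_sub_norm_le _ _)
        rw [norm_neg, norm_mul, norm_div, Complex.norm_real, Real.norm_of_nonneg hr.le]
        have h5 : ‖(m:ℂ) + 2‖ = m + 2 := by
          have : (m:ℂ) + 2 = ((m + 2 : ℕ) : ℂ) := by push_cast; ring
          rw [this, Complex.norm_natCast]; push_cast; ring
        have h6 : ‖(m:ℂ) + 1‖ = m + 1 := by
          have : (m:ℂ) + 1 = ((m + 1 : ℕ) : ℂ) := by push_cast; ring
          rw [this, Complex.norm_natCast]; push_cast; ring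
        rw [h5, h6]
      have h7 : ((m:ℝ) + 3) * σ * (‖c‖ / r (m + 1)) ≤ (m + 3) * σ * (1 / 3) := by gcongr
      nlinarith [mul_nonneg hm0 (sub_nonneg.2 hσ2)]
    · by_contra hcon
      rw [not_lt] at hcon
      set σ := ‖c‖ / r m with hσ
      have h3 : ‖c‖ ≤ r m + r m / (2 * (m + 2)) := by
        calc ‖c‖ = ‖(c + r m) - r m‖ := by ring_nf
          _ ≤ ‖c + r m‖ + ‖(r m : ℂ)‖ := norm_sub_le _ _
          _ ≤ _ := by rw [Complex.norm_real, Real.norm_of_nonneg hr.le]; linarith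
      have h4 : r m / (2 * ((m:ℝ) + 2)) ≤ r m / 4 := by
        apply div_le_div_of_nonneg_left hr.le (by norm_num); linarith
      have hσ1 : σ ≤ 5 / 4 := by rw [hσ, div_le_iff₀ hr]; linarith
      have hσ0 : 0 ≤ σ := by positivity
      have hq : ‖c‖ / r (m + 1) ≤ 1 / (10000 * (m + 2)) :=
        ratio_rho m (by linarith [two_r_le_rho m])
      have h5 : 1 / 2 ≤ ‖-1 + ((m:ℂ) + 2) * ((c + r m) / r m)‖ := by
        have h6 : ‖((m:ℂ) + 2) * ((c + r m) / r m)‖ ≤ 1 / 2 := by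
          rw [norm_mul, norm_div, Complex.norm_real, Real.norm_of_nonneg hr.le]
          have h5 : ‖(m:ℂ) + 2‖ = m + 2 := by
            have : (m:ℂ) + 2 = ((m + 2 : ℕ) : ℂ) := by push_cast; ring
            rw [this, Complex.norm_natCast]; push_cast; ring
          rw [h5]
          calc ((m:ℝ) + 2) * (‖c + r m‖ / r m) ≤ (m + 2) * ((r m / (2 * (m + 2))) / r m) := by
                gcongr
            _ = 1 / 2 := by field_simp
        have h7 := norm_sub_norm_le (-1 : ℂ) (-(((m:ℂ) + 2) * ((c + r m) / r m)))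
        rw [sub_neg_eq_add, norm_neg, norm_neg, norm_one] at h7
        linarith
      have h8 : ((m:ℝ) + 3) * σ * (‖c‖ / r (m + 1)) ≤ 1 / 1000 := by
        calc ((m:ℝ) + 3) * σ * (‖c‖ / r (m + 1)) ≤ (m + 3) * (5 / 4) * (1 / (10000 * (m + 2))) := by
              gcongr
          _ = (5 * (m + 3)) / (40000 * (m + 2)) := by field_simp; norm_num
          _ ≤ _ := by
              rw [div_le_div_iff₀ (by positivity) (by norm_num)]; linarith
      linarith

/-- All the facts used in the dynamical part. -/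
theorem bakerData : BakerData fn r rho where
  entire := differentiable_fn
  map_zero := fn_zero
  r_pos := r_pos
  r_tendsto := r_tendsto
  two_r_le := two_r_le_rho
  rho_lt m := by
    have h1 := rho_le m
    have h2 := r_pos (m + 1)
    have hm : (0:ℝ) ≤ m := by positivity
    have h3 : 1 / (10000 * ((m:ℝ) + 2)) ≤ 1 / 4 := by
      apply one_div_le_one_div_of_le (by norm_num); linarith
    have h4 := mul_le_mul_of_nonneg_right h3 h2.le
    linarith
  lower := lower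
  upper := upper
  mono := fn_mono
  zero_mem := zero_mem
  growth := growth
  crit := crit
  not_poly := not_poly

end Pool.Agent.Lib.MP_8c76c5_an
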