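import Pool.Agent.Lib.MP_8c76c5_an.Dyn
import Pool.Agent.Lib.MP_8c76c5_an.Verify

set_option autoImplicit false

namespace Pool.Agent.Lib.MP_8c76c5_an

theorem main : ∃ (f : ℂ → ℂ) (U : ℕ → Set ℂ),
    TranscendentalEntire f ∧ BakerWanderingDomain f U ∧ InfinitelyConnected (U 0) ∧
      ∀ c, deriv f c = 0 → ∃ k, c ∈ U k :=
  ⟨fn, BakerData.UU fn r, bakerData.conclusion⟩

end Pool.Agent.Lib.MP_8c76c5_an
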