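import Pool.Agent.Lib.MP_8c76c5_an.Data

set_option autoImplicit false

open Set Filter Topology

namespace Pool.Agent.Lib.MP_8c76c5_an

/-- The pair (coefficient, radius). -/
noncomputable def ar : ℕ → ℝ × ℝ
  | 0 => (96 * 10 ^ 6, 1)
  | m + 1 => ((ar m).1 / (ar m).2, (ar m).1 * ((ar m).2 / 3) ^ (m + 1) / (16 * (m + 2)))

/-- the coefficients -/
noncomputable def a (m : ℕ) : ℝ := (ar m).1

/-- the radii -/
noncomputable def r (m : ℕ) : ℝ := (ar m).2

/-- the outer radii -/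
noncomputable def rho : ℕ → ℝ
  | 0 => 2
  | m + 1 => 4 * a (m + 1) * rho m ^ (m + 2)

lemma a_zero : a 0 = 96 * 10 ^ 6 := rfl
lemma r_zero : r 0 = 1 := rfl
lemma a_succ (m : ℕ) : a (m + 1) = a m / r m := rfl
lemma r_succ (m : ℕ) : r (m + 1) = a m * (r m / 3) ^ (m + 1) / (16 * (m + 2)) := rfl
lemma rho_zero : rho 0 = 2 := rfl
lemma rho_succ (m : ℕ) : rho (m + 1) = 4 * a (m + 1) * rho m ^ (m + 2) := rfl

lemma ar_pos (m : ℕ) : 0 < a m ∧ 0 < r m := by
  induction m with
  | zero => simp [a_zero, r_zero]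
  | succ m ih =>
    obtain ⟨h1, h2⟩ := ih
    refine ⟨?_, ?_⟩
    · rw [a_succ]; positivity
    · rw [r_succ]; positivity

lemma a_pos (m : ℕ) : 0 < a m := (ar_pos m).1
lemma r_pos (m : ℕ) : 0 < r m := (ar_pos m).2

lemma rho_pos (m : ℕ) : 0 < rho m := by
  induction m with
  | zero => simp [rho_zero]
  | succ m ih => rw [rho_succ]; have := a_pos (m + 1); positivity

lemma two_r_le_rho (m : ℕ) : 2 * r m ≤ rho m := by
  induction m with
  | zero => simp [rho_zero, r_zero]
  | succ m ih =>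
    have ha := a_pos m
    have hr := r_pos m
    rw [rho_succ, r_succ, a_succ]
    have h1 : (2 * r m) ^ (m + 2) ≤ rho m ^ (m + 2) := by gcongr
    have h2 : (r m / 3) ^ (m + 1) ≤ (r m) ^ (m + 1) := by gcongr; linarith
    have h3 : (2 * r m) ^ (m + 2) = 2 ^ (m + 2) * r m ^ (m + 1) * r m := by ring
    have h4 : (1 : ℝ) ≤ 2 ^ (m + 2) := one_le_pow₀ (by norm_num)
    calc 2 * (a m * (r m / 3) ^ (m + 1) / (16 * (m + 2)))
        ≤ 2 * (a m * (r m) ^ (m + 1) / (16 * (m + 2))) := by gcongr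
      _ ≤ 2 * (a m * (r m) ^ (m + 1) / 1) := by
          gcongr
          have : (0:ℝ) ≤ m := by positivity
          linarith
      _ ≤ 4 * (a m * (1 * r m ^ (m + 1))) := by
          have : 0 < a m * r m ^ (m + 1) := by positivity
          rw [div_one, one_mul]; linarith
      _ ≤ 4 * (a m * (2 ^ (m + 2) * r m ^ (m + 1))) := by gcongr
      _ = 4 * (a m / r m) * (2 * r m) ^ (m + 2) := by
          rw [h3]; field_simp
      _ ≤ 4 * (a m / r m) * rho m ^ (m + 2) := by gcongr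

lemma rho_succ_eq (m : ℕ) :
    rho (m + 1) = 64 * (m + 3) * (3 * rho m / r (m + 1)) ^ (m + 2) * r (m + 2) := by
  have ha := a_pos (m + 1)
  have hr := r_pos (m + 1)
  rw [rho_succ, r_succ (m + 1)]
  push_cast
  have h : ((m:ℝ) + 1 + 2) = m + 3 := by ring
  rw [h]
  have h1 : (3 * rho m / r (m + 1)) ^ (m + 2) * (r (m + 1) / 3) ^ (m + 2) = rho m ^ (m + 2) := by
    rw [← mul_pow]; congr 1; field_simp
  have h2 : (r (m + 1) / 3) ^ (m + 1 + 1) = (r (m + 1) / 3) ^ (m + 2) := rfl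
  rw [h2]
  have h3 : (0:ℝ) < (m:ℝ) + 3 := by positivity
  calc 4 * a (m + 1) * rho m ^ (m + 2)
      = 4 * a (m + 1) * ((3 * rho m / r (m + 1)) ^ (m + 2) * (r (m + 1) / 3) ^ (m + 2)) := by
        rw [h1]
    _ = _ := by field_simp; ring

lemma rho_le (m : ℕ) : rho m ≤ 1 / (10000 * (m + 2)) * r (m + 1) := by
  induction m with
  | zero =>
    rw [rho_zero, r_succ, a_zero, r_zero]
    norm_num
  | succ m ih =>
    have hr1 := r_pos (m + 1)
    have hr2 := r_pos (m + 2)
    have hrho := rho_pos m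
    rw [rho_succ_eq]
    have hm : (0:ℝ) ≤ m := by positivity
    set q := 3 * rho m / r (m + 1) with hq
    have hq0 : 0 ≤ q := by positivity
    have hq1 : q ≤ 3 / (10000 * (m + 2)) := by
      rw [hq, div_le_iff₀ hr1]
      calc 3 * rho m ≤ 3 * (1 / (10000 * (m + 2)) * r (m + 1)) := by gcongr
        _ = _ := by ring
    have hq2 : q ≤ 1 := hq1.trans (by
      rw [div_le_one (by positivity)]; linarith)
    have hq3 : q ^ (m + 2) ≤ q ^ 2 := pow_le_pow_of_le_one hq0 hq2 (by omega)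
    have hq4 : q ^ 2 ≤ (3 / (10000 * (m + 2))) ^ 2 := by gcongr
    have h5 : 64 * ((m:ℝ) + 3) * (3 / (10000 * (m + 2))) ^ 2 ≤ 1 / (10000 * (m + 3)) := by
      rw [div_pow, mul_div_assoc', div_le_div_iff₀ (by positivity) (by positivity)]
      nlinarith [hm, mul_nonneg hm hm]
    push_cast
    have h6 : ((m:ℝ) + 1 + 2) = m + 3 := by ring
    rw [h6]
    calc 64 * ((m:ℝ) + 3) * q ^ (m + 2) * r (m + 2)
        ≤ 64 * ((m:ℝ) + 3) * (3 / (10000 * (m + 2))) ^ 2 * r (m + 2) := by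
          have := hq3.trans hq4
          gcongr
      _ ≤ 1 / (10000 * (m + 3)) * r (m + 2) := by gcongr

lemma r_le (m : ℕ) : r m ≤ 1 / (20000 * (m + 2)) * r (m + 1) := by
  have h1 := two_r_le_rho m
  have h2 := rho_le m
  have h3 : 1 / (10000 * ((m:ℝ) + 2)) * r (m + 1) = 2 * (1 / (20000 * (m + 2)) * r (m + 1)) := by
    field_simp; ring
  rw [h3] at h2
  linarith

lemma r_le' (m : ℕ) : 40000 * r m ≤ r (m + 1) := by
  have h := r_le m
  have hm : (0:ℝ) ≤ m := by positivity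
  have h2 : 1 / (20000 * ((m:ℝ) + 2)) ≤ 1 / 40000 := by
    apply one_div_le_one_div_of_le (by norm_num); linarith
  have h3 : r m ≤ 1 / 40000 * r (m + 1) :=
    h.trans (mul_le_mul_of_nonneg_right h2 (r_pos _).le)
  linarith

lemma r_strictMono : StrictMono r := by
  apply strictMono_nat_of_lt_succ
  intro m
  have := r_le' m
  have := r_pos m
  linarith

lemma r_ge (m : ℕ) : (2:ℝ) ^ m ≤ r m := by
  induction m with
  | zero => simp [r_zero]
  | succ m ih =>
    have := r_le' m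
    have := r_pos m
    rw [pow_succ]; linarith

lemma r_tendsto : Tendsto r atTop atTop :=
  tendsto_atTop_mono r_ge (tendsto_pow_atTop_atTop_of_one_lt (by norm_num))

lemma one_le_r (m : ℕ) : 1 ≤ r m := le_trans (one_le_pow₀ (by norm_num)) (r_ge m)

/-- the quotient of consecutive radii -/
noncomputable def x (m : ℕ) : ℝ := r (m + 1) / r m

lemma x_pos (m : ℕ) : 0 < x m := div_pos (r_pos _) (r_pos _)

lemma r_succ' (m : ℕ) : r (m + 1) = x m * r m := by
  have := r_pos m
  unfold x; field_simp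

lemma x_ge (m : ℕ) : 40000 ≤ x m := by
  unfold x
  rw [le_div_iff₀ (r_pos m)]
  exact r_le' m

lemma x_succ (m : ℕ) : x (m + 1) = x m ^ (m + 2) * ((m + 2) / (3 * (m + 3))) := by
  have hr := r_pos m
  have hr1 := r_pos (m + 1)
  have ha := a_pos m
  have hA : a m = r (m + 1) * (16 * (m + 2)) / (r m / 3) ^ (m + 1) := by
    rw [r_succ m]; field_simp
  have h2 : r (m + 2) = a (m + 1) * (r (m + 1) / 3) ^ (m + 2) / (16 * (m + 3)) := by
    rw [r_succ (m + 1)]; push_cast; congr 2; ring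
  have h3 : x (m + 1) = r (m + 2) / r (m + 1) := rfl
  rw [h3, h2, a_succ, hA]
  unfold x
  rw [div_pow, div_pow, div_pow, pow_succ (3:ℝ) (m + 1)]
  rw [pow_succ (r m) (m + 1)]
  field_simp
  
lemma x_succ_ge (m : ℕ) : x m ^ (m + 1) ≤ x (m + 1) := by
  have hx := x_ge m
  have hm : (0:ℝ) ≤ m := by positivity
  have h1 : (2:ℝ) / 9 ≤ (m + 2) / (3 * (m + 3)) := by
    rw [div_le_div_iff₀ (by positivity) (by positivity)]; linarith
  have hp : 0 < x m ^ (m + 1) := pow_pos (x_pos m) _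
  rw [x_succ, pow_succ]
  calc x m ^ (m + 1) = x m ^ (m + 1) * 1 := by ring
    _ ≤ x m ^ (m + 1) * (x m * (2 / 9)) := by gcongr; linarith
    _ ≤ x m ^ (m + 1) * (x m * ((m + 2) / (3 * (m + 3)))) := by gcongr
    _ = _ := by ring

lemma r_le_x (m : ℕ) : r m ≤ x m := by
  cases m with
  | zero => rw [r_zero]; linarith [x_ge 0]
  | succ m =>
    induction m with
    | zero =>
      rw [r_succ', r_zero, mul_one]
      have := x_succ_ge 0
      simpa using this
    | succ m ih =>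
      have h := x_succ_ge (m + 1)
      have hx := x_ge (m + 1)
      rw [r_succ']
      calc x (m + 1) * r (m + 1) ≤ x (m + 1) * x (m + 1) := by gcongr
        _ = x (m + 1) ^ 2 := by ring
        _ ≤ x (m + 1) ^ (m + 1 + 1) := pow_le_pow_right₀ (by linarith) (by omega)
        _ ≤ _ := h

lemma r_pow_le (m : ℕ) : r m ^ (m / 2) ≤ x m := by
  cases m with
  | zero => simp; linarith [x_ge 0]
  | succ m =>
    have hx := x_ge m
    have h1 : r (m + 1) ≤ x m ^ 2 := by
      rw [r_succ', sq]; exact mul_le_mul_of_nonneg_left (r_le_x m) (x_pos m).le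
    calc r (m + 1) ^ ((m + 1) / 2) ≤ (x m ^ 2) ^ ((m + 1) / 2) := by
          gcongr; exact (r_pos _).le
      _ = x m ^ (2 * ((m + 1) / 2)) := by rw [pow_mul]
      _ ≤ x m ^ (m + 1) := pow_le_pow_right₀ (by linarith) (by omega)
      _ ≤ _ := x_succ_ge m

end Pool.Agent.Lib.MP_8c76c5_an
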